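import Pool.Agent.Helper78.LD6.BG
import Pool.Agent.Helper5.LD6.T5b

set_option autoImplicit false

/-! # Project LD6, block CORE: independence of grid functions at distinct fast times -/

namespace Pool.Agent.Helper78.LD6

open Set MeasureTheory Filter Topology
open Pool.Agent.Helper41.LD6
open Pool.Agent.Helper59.RE (e)

section numbers

variable {F : Pm} {K : ℕ}

theorem one_le_Z (F : Pm) : 1000 ≤ F.Z := by
  unfold Pm.Z
  have h1 : 1 ≤ (F.X + 1) := by omega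
  have h2 : 1 ≤ (F.C₂ + F.R + F.t * F.Gp + F.D' + 10) := by omega
  calc 1000 = 1000 * 1 * 1 := by norm_num
    _ ≤ 1000 * (F.X + 1) * (F.C₂ + F.R + F.t * F.Gp + F.D' + 10) := by gcongr

theorem Z_ge (F : Pm) : F.C₂ + F.R + F.t * F.Gp + F.D' + 10 ≤ F.Z := by
  unfold Pm.Z
  calc F.C₂ + F.R + F.t * F.Gp + F.D' + 10 = 1 * (F.C₂ + F.R + F.t * F.Gp + F.D' + 10) := by ring
    _ ≤ 1000 * (F.X + 1) * (F.C₂ + F.R + F.t * F.Gp + F.D' + 10) := by
        gcongr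
        omega

theorem D'_le_Z (F : Pm) : F.D' + 10 ≤ F.Z := by
  have := Z_ge F
  omega

theorem d_le_Z (F : Pm) : 200 * (F.d + 2) ≤ F.Z := by
  have h1 := D'_le_Z F
  have h2 : F.D ≤ F.D' := by
    unfold Pm.D'
    omega
  have h3 : F.D₁ + 1 ≤ F.D := by
    unfold Pm.D
    have : 1 ≤ F.t := by
      unfold Pm.t
      omega
    exact Nat.le_mul_of_pos_right _ this
  have h4 : F.D₁ = 200 * (F.d + 2) := rfl
  omega

theorem Big.one (hK : F.Big K) : 1 ≤ K := by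
  have h1 := one_le_Z F
  have h2 : 1 ≤ F.Z ^ 4 := Nat.one_le_pow _ _ (by omega)
  exact h2.trans hK

theorem Big.Z (hK : F.Big K) : F.Z ≤ K := by
  have h1 := one_le_Z F
  have h2 : F.Z ^ 1 ≤ F.Z ^ 4 := Nat.pow_le_pow_right (by omega) (by norm_num)
  rw [pow_one] at h2
  exact h2.trans hK

theorem E_ge (F : Pm) (K : ℕ) : 4 * K ≤ F.E K := by
  unfold Pm.E
  gcongr
  omega

theorem E_pos (hK : F.Big K) : 1 ≤ F.E K := by
  have := E_ge F K
  have := Big.one hK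
  omega

theorem tK_le (F : Pm) (K : ℕ) : K * F.t ≤ 2 * F.E K := by
  unfold Pm.E Pm.t
  calc K * (2 * (F.d + 1)) = 2 * ((F.d + 1) * K) := by ring
    _ ≤ 2 * ((F.d + 4) * K) := by gcongr; omega

theorem t_le (hK : F.Big K) : 8 * F.t ≤ 2 ^ F.E K := by
  have h1 : F.t ≤ 2 * F.E K := by
    have h2 := tK_le F K
    have h3 := Big.one hK
    calc F.t = 1 * F.t := by ring
      _ ≤ K * F.t := by gcongr
      _ ≤ _ := h2
  have h2 : 8 ≤ F.E K := by
    have := E_ge F K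
    have := Big.Z hK
    have := one_le_Z F
    omega
  have h3 : ∀ n : ℕ, 8 ≤ n → 16 * n ≤ 2 ^ n := by
    intro n hn
    induction n, hn using Nat.le_induction with
    | base => norm_num
    | succ n hn ih =>
      rw [pow_succ]
      omega
  have := h3 _ h2
  omega

/-- the length of the windows against the precision -/
theorem EK_le (hK : F.Big K) : (F.D' + 40) * F.E K ≤ K ^ 4 := by
  have h1 := D'_le_Z F
  have h2 := d_le_Z F
  have h0 := one_le_Z F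
  have h3 : F.E K ≤ F.Z * K := by
    unfold Pm.E
    gcongr
    omega
  have h4 : F.D' + 40 ≤ 2 * F.Z := by omega
  have h5 := Big.one hK
  calc (F.D' + 40) * F.E K ≤ (2 * F.Z) * (F.Z * K) := Nat.mul_le_mul h4 h3
    _ = (2 * F.Z ^ 2) * K := by ring
    _ ≤ F.Z ^ 4 * K := by
        gcongr
        calc 2 * F.Z ^ 2 ≤ F.Z ^ 2 * F.Z ^ 2 := by
              gcongr
              nlinarith
          _ = F.Z ^ 4 := by ring
    _ ≤ K * K := by
        gcongr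
        exact hK
    _ = K ^ 2 := by ring
    _ ≤ K ^ 4 := Nat.pow_le_pow_right h5 (by norm_num)

end numbers

theorem half_mul (n m : ℕ) : (2 : ℝ) ^ n * (1 / 2) ^ (n + m) = (1 / 2) ^ m := by
  rw [pow_add, ← mul_assoc, ← mul_pow]
  norm_num

theorem core_gen {F : Pm} (hF : F.Ok) {K : ℕ} (hK : F.Big K) {a ℓ p q ϑ : ℝ} (ha : F.x₁ ≤ a) (hb : a + ℓ ≤ F.x₂) (hℓ : 0 < ℓ)
    (hsm : ℓ * 2 ^ (K ^ 4) ≤ 1)
    (hnr : ∀ x ∈ Icc a (a + ℓ), NR6 F.t (F.t * (F.Gp * F.E K)) (2 ^ (3 * K)) (2 ^ (31 * F.E K)) ((1 / 2) ^ (F.D * F.E K)) x)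
    (hp : a ≤ p) (hpq : p ≤ q) (hq : q ≤ a + ℓ) (I : Finset ℕ) (hI : I.card ≤ F.t) (hIT : ∀ τ ∈ I, 1 ≤ τ ∧ τ ≤ 2 ^ (3 * K))
    (hϑ : 0 < ϑ) (hV : ∀ τ ∈ I, ϑ ≤ Vf F.A₀ τ a * ℓ) (f : ℕ → ℝ → ℝ) (hf : ∀ τ ∈ I, Gr (2 ^ K) (f τ)) :
    |(∫ x in p..q, ∏ τ ∈ I, f τ (Uf F.A₀ F.c τ x)) - (q - p) * ∏ τ ∈ I, ∫ t in (0 : ℝ)..1, f τ t| ≤
      (1 / 2) ^ (11 * F.E K) * (q - p) + 2 ^ (F.C₀ * F.E K) * ℓ / ϑ := by
  classical
  set E := F.E K with hE
  have hE1 : 1 ≤ E := E_pos hK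
  have hEK : 3 * K ≤ E := by
    have := E_ge F K
    omega
  have ht : 8 * (F.t : ℝ) ≤ 2 ^ E := by exact_mod_cast t_le hK
  have htI : (I.card : ℝ) ≤ F.t := by exact_mod_cast hI
  have hT : (2 : ℝ) ^ (3 * K) ≤ 2 ^ E := pow_le_pow_right₀ (by norm_num) hEK
  set κ₁ : ℝ := (1 / 2) ^ (F.D' * E) with hκ₁
  have hκpos : 0 < κ₁ := by positivity
  -- the exponential integrals
  have hexp : ∀ m : ℕ → ℤ, (∀ k ∈ I, |m k| ≤ ((2 ^ (31 * E) : ℕ) : ℤ)) → (∃ k ∈ I, m k ≠ 0) →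
      ‖∫ x in p..q, e (∑ k ∈ I, m k * Uf F.A₀ F.c k x)‖ ≤ 2 * ℓ / (κ₁ * ϑ) := by
    intro m hm hm0
    refine Pool.Agent.Helper5.LD6.phi_int (x₁ := F.x₁) (x₂ := F.x₂) (a := a) (t := F.t) (G := F.Gp * E) (T := 2 ^ (3 * K)) (N := 2 ^ (31 * E))
      (δ := (1 / 2) ^ (F.D * E)) hF.hA hF.h1 ha hb hℓ hp hpq hq F.c I hI hIT hnr Nat.one_le_two_pow (by positivity) ?_ hκpos ?_ ?_ ?_
      hϑ hV m hm hm0
    · -- the gap
      have h1 : (2 : ℝ) ^ ((F.D + 40) * E) ≤ F.x₁ ^ (F.Gp * E) := by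
        have e0 : F.x₁ ^ (F.Gp * E) = (F.x₁ ^ F.X) ^ ((F.D + 40) * E) := by
          rw [← pow_mul]
          congr 1
          unfold Pm.Gp
          ring
        rw [e0]
        exact pow_le_pow_left₀ (by norm_num) hF.hx1 _
      push_cast
      calc (F.t : ℝ) * 2 ^ (31 * E) * 2 ^ (3 * K) ≤ 2 ^ E * 2 ^ (31 * E) * 2 ^ E := by
            gcongr
            linarith
        _ = 2 ^ (33 * E) := by
            rw [← pow_add, ← pow_add]
            congr 1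
            ring
        _ ≤ 2 ^ (40 * E) / 2 := by
            rw [le_div_iff₀ (by norm_num), ← pow_succ]
            exact pow_le_pow_right₀ (by norm_num) (by omega)
        _ = (1 / 2) ^ (F.D * E) / 2 * 2 ^ ((F.D + 40) * E) := by
            have : (F.D + 40) * E = F.D * E + 40 * E := by ring
            rw [this, pow_add]
            have h2 : (1 / 2 : ℝ) ^ (F.D * E) * 2 ^ (F.D * E) = 1 := by
              rw [← mul_pow]
              norm_num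
            calc (2 : ℝ) ^ (40 * E) / 2 = 1 * (2 ^ (40 * E) / 2) := by ring
              _ = (1 / 2) ^ (F.D * E) * 2 ^ (F.D * E) * (2 ^ (40 * E) / 2) := by rw [h2]
              _ = _ := by ring
        _ ≤ _ := by gcongr
    · -- `κ₁`
      have h1 : F.x₂ ^ (F.t * (F.Gp * E)) ≤ 2 ^ (F.X * (F.t * F.Gp) * E) := by
        have e0 : (2 : ℝ) ^ (F.X * (F.t * F.Gp) * E) = (2 ^ F.X) ^ (F.t * (F.Gp * E)) := by
          rw [← pow_mul]
          congr 1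
          ring
        rw [e0]
        have h0 : 0 ≤ F.x₂ := by linarith [hF.h1, hF.h12]
        exact pow_le_pow_left₀ h0 hF.hx2 _
      push_cast
      calc κ₁ * (2 * 2 ^ (3 * K) * F.x₂ ^ (F.t * (F.Gp * E))) ≤ κ₁ * (2 ^ E * 2 ^ E * 2 ^ (F.X * (F.t * F.Gp) * E)) := by
            have h2 : (2 : ℝ) ≤ 2 ^ E := by
              calc (2 : ℝ) = 2 ^ 1 := by norm_num
                _ ≤ 2 ^ E := pow_le_pow_right₀ (by norm_num) hE1
            have h0 : 0 ≤ F.x₂ := by linarith [hF.h1, hF.h12]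
            gcongr
        _ ≤ 2 ^ (2 * E + F.X * (F.t * F.Gp) * E) * (1 / 2) ^ (F.D' * E) := by
            rw [hκ₁, mul_comm]
            gcongr
            rw [← pow_add, ← pow_add]
            exact pow_le_pow_right₀ (by norm_num) (by omega)
        _ = (1 / 2) ^ ((F.D + 2) * E) := by
            have : F.D' * E = (2 * E + F.X * (F.t * F.Gp) * E) + (F.D + 2) * E := by
              unfold Pm.D'
              ring
            rw [this]
            exact half_mul _ _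
        _ ≤ (1 / 2) ^ (F.D * E) := pow_le_pow_of_le_one (by norm_num) (by norm_num) (by gcongr; omega)
    · -- the length
      have h1 : ℓ ≤ (1 / 2) ^ (K ^ 4) := by
        rw [one_div, inv_pow, ← one_div, le_div_iff₀ (by positivity)]
        exact hsm
      have h2 := EK_le hK
      push_cast
      calc 2 * (F.t : ℝ) * 2 ^ (31 * E) * 2 ^ (3 * K) * ℓ ≤ 2 ^ E * 2 ^ (31 * E) * 2 ^ E * (1 / 2) ^ (K ^ 4) := by
            gcongr
            linarith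
        _ ≤ 2 ^ E * 2 ^ (31 * E) * 2 ^ E * (1 / 2) ^ ((F.D' + 40) * E) :=
            mul_le_mul_of_nonneg_left (pow_le_pow_of_le_one (by norm_num) (by norm_num) h2) (by positivity)
        _ = 2 ^ (33 * E) * (1 / 2) ^ (33 * E + (F.D' + 7) * E) := by
            have e1 : (2 : ℝ) ^ E * 2 ^ (31 * E) * 2 ^ E = 2 ^ (33 * E) := by
              rw [← pow_add, ← pow_add]
              congr 1
              ring
            have e2 : (F.D' + 40) * E = 33 * E + (F.D' + 7) * E := by ring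
            rw [e1, e2]
        _ = (1 / 2) ^ ((F.D' + 7) * E) := half_mul _ _
        _ ≤ κ₁ := pow_le_pow_of_le_one (by norm_num) (by norm_num) (by gcongr; omega)
    · have h1 : ℓ ≤ (1 / 2) ^ (K ^ 4) := by
        rw [one_div, inv_pow, ← one_div, le_div_iff₀ (by positivity)]
        exact hsm
      have h2 : 3 * K + 1 ≤ K ^ 4 := by
        have h3 := EK_le hK
        have h4 := E_ge F K
        have h5 : 1 * F.E K ≤ (F.D' + 40) * F.E K := Nat.mul_le_mul_right _ (by omega)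
        have h6 := Big.one hK
        omega
      push_cast
      calc (2 : ℝ) ^ (3 * K) * ℓ ≤ 2 ^ (3 * K) * (1 / 2) ^ (3 * K + 1) :=
            mul_le_mul_of_nonneg_left (h1.trans (pow_le_pow_of_le_one (by norm_num) (by norm_num) h2)) (by positivity)
        _ = (1 / 2) ^ 1 := half_mul _ _
        _ = 1 / 2 := by norm_num
  -- the boxes
  have hmeasU : ∀ k ∈ I, Measurable (Uf F.A₀ F.c k) := by
    intro k _
    unfold Uf
    fun_prop
  have hN : (4 : ℝ) / ((1 / 2) ^ (14 * E) * ((2 ^ (31 * E) : ℕ) : ℝ)) ≤ (1 / 2) ^ (14 * E) := by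
    rw [div_le_iff₀ (by positivity)]
    push_cast
    have h1 : (1 / 2 : ℝ) ^ (14 * E) * ((1 / 2) ^ (14 * E) * 2 ^ (31 * E)) = 2 ^ (3 * E) := by
      have h2 : (2 : ℝ) ^ (31 * E) = 2 ^ (14 * E) * 2 ^ (14 * E) * 2 ^ (3 * E) := by
        rw [← pow_add, ← pow_add]
        congr 1
        ring
      have h3 : (1 / 2 : ℝ) ^ (14 * E) * 2 ^ (14 * E) = 1 := by
        rw [← mul_pow]
        norm_num
      rw [h2]
      calc (1 / 2 : ℝ) ^ (14 * E) * ((1 / 2) ^ (14 * E) * (2 ^ (14 * E) * 2 ^ (14 * E) * 2 ^ (3 * E))) =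
            ((1 / 2 : ℝ) ^ (14 * E) * 2 ^ (14 * E)) * ((1 / 2 : ℝ) ^ (14 * E) * 2 ^ (14 * E)) * 2 ^ (3 * E) := by ring
        _ = _ := by rw [h3]; ring
    rw [h1]
    calc (4 : ℝ) = 2 ^ 2 := by norm_num
      _ ≤ 2 ^ (3 * E) := pow_le_pow_right₀ (by norm_num) (by omega)
  have hδ8 : ((1 / 2 : ℝ)) ^ (14 * E) ≤ 1 / 8 := by
    calc ((1 / 2 : ℝ)) ^ (14 * E) ≤ (1 / 2) ^ 3 := pow_le_pow_of_le_one (by norm_num) (by norm_num) (by omega)
      _ = 1 / 8 := by norm_num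
  have hδI : (I.card : ℝ) * (1 / 2) ^ (14 * E) ≤ 1 / 4 := by
    calc (I.card : ℝ) * (1 / 2) ^ (14 * E) ≤ 2 ^ E * (1 / 2) ^ (E + 13 * E) := by
          have e1 : 14 * E = E + 13 * E := by ring
          rw [e1]
          gcongr
          linarith
      _ = (1 / 2) ^ (13 * E) := half_mul _ _
      _ ≤ (1 / 2) ^ 2 := pow_le_pow_of_le_one (by norm_num) (by norm_num) (by omega)
      _ = 1 / 4 := by norm_num
  have hmain := box_grid I (fun k => Uf F.A₀ F.c k) (p := p) (q := q) (δ := (1 / 2) ^ (14 * E)) (ε := 2 * ℓ / (κ₁ * ϑ)) hpq hmeasU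
    (by positivity) hδ8 hδI (N := 2 ^ (31 * E)) hN Nat.one_le_two_pow (by positivity) hexp (N₀ := 2 ^ K) Nat.one_le_two_pow f hf
  refine hmain.trans ?_
  have hNI : (((2 ^ K : ℕ) : ℝ)) ^ I.card ≤ 2 ^ (2 * E) := by
    push_cast
    rw [← pow_mul]
    refine pow_le_pow_right₀ (by norm_num) ((Nat.mul_le_mul_left K hI).trans (tK_le F K))
  have h2N : (2 * (((2 ^ (31 * E) : ℕ)) : ℝ) + 1) ^ I.card ≤ 2 ^ (33 * E * F.t) := by
    have h1 : 2 * (((2 ^ (31 * E) : ℕ)) : ℝ) + 1 ≤ 2 ^ (33 * E) := by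
      push_cast
      have h3 : (1 : ℝ) ≤ 2 ^ (31 * E) := one_le_pow₀ (by norm_num)
      calc 2 * (2 : ℝ) ^ (31 * E) + 1 ≤ 4 * 2 ^ (31 * E) := by linarith
        _ = 2 ^ (31 * E + 2) := by rw [pow_add]; ring
        _ ≤ _ := pow_le_pow_right₀ (by norm_num) (by omega)
    calc _ ≤ ((2 : ℝ) ^ (33 * E)) ^ I.card := pow_le_pow_left₀ (by positivity) h1 _
      _ ≤ ((2 : ℝ) ^ (33 * E)) ^ F.t := pow_le_pow_right₀ (one_le_pow₀ (by norm_num)) hI
      _ = _ := by rw [← pow_mul]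
  rw [mul_add]
  refine add_le_add ?_ ?_
  · have h0 : 0 ≤ q - p := by linarith
    calc (((2 ^ K : ℕ) : ℝ)) ^ I.card * (8 * (I.card : ℝ) * (1 / 2) ^ (14 * E) * (q - p))
        ≤ 2 ^ (2 * E) * (2 ^ E * (1 / 2) ^ (14 * E) * (q - p)) := by
          gcongr
          linarith
      _ = 2 ^ (3 * E) * (1 / 2) ^ (3 * E + 11 * E) * (q - p) := by
          have e1 : 14 * E = 3 * E + 11 * E := by ring
          have e2 : (2 : ℝ) ^ (3 * E) = 2 ^ (2 * E) * 2 ^ E := by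
            rw [← pow_add]
            congr 1
            ring
          rw [e1, e2]
          ring
      _ = _ := by rw [half_mul]
  · have hκ' : 1 / κ₁ = 2 ^ (F.D' * E) := by
      rw [hκ₁, one_div_pow, one_div_one_div]
    calc (((2 ^ K : ℕ) : ℝ)) ^ I.card * ((2 * (((2 ^ (31 * E) : ℕ)) : ℝ) + 1) ^ I.card * (2 * ℓ / (κ₁ * ϑ)))
        ≤ 2 ^ (2 * E) * (2 ^ (33 * E * F.t) * (2 * ℓ / (κ₁ * ϑ))) := by gcongr
      _ = (2 ^ (2 * E) * 2 ^ (33 * E * F.t) * 2 * 2 ^ (F.D' * E)) * ℓ / ϑ := by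
          rw [← hκ']
          field_simp
      _ ≤ 2 ^ (F.C₀ * E) * ℓ / ϑ := by
          gcongr
          have e1 : (2 : ℝ) ^ (2 * E) * 2 ^ (33 * E * F.t) * 2 * 2 ^ (F.D' * E) = 2 ^ (2 * E + 33 * E * F.t + 1 + F.D' * E) := by
            rw [← pow_add, ← pow_succ, ← pow_add]
          rw [e1]
          apply pow_le_pow_right₀ (by norm_num)
          unfold Pm.C₀
          nlinarith [Nat.zero_le (E * F.t)]

/-- **CORE**: at most `t` distinct fast times are independent -/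
theorem core {F : Pm} {K : ℕ} {a₀ ℓst a ℓ : ℝ} (hF : F.Ok) (hK : F.Big K) (S : F.St K a₀ ℓst) (hℓ : 0 < ℓ) (h1 : a₀ ≤ a)
    (h2 : a + ℓ ≤ a₀ + ℓst) {p q ϑ : ℝ}
    (hp : a ≤ p) (hpq : p ≤ q) (hq : q ≤ a + ℓ) (I : Finset ℕ) (hI : I.card ≤ F.t) (hIT : ∀ τ ∈ I, 1 ≤ τ ∧ τ ≤ 2 ^ (3 * K)) (hϑ : 0 < ϑ)
    (hV : ∀ τ ∈ I, ϑ ≤ Vf F.A₀ τ a * ℓ) (f : ℕ → ℝ → ℝ) (hf : ∀ τ ∈ I, Gr (2 ^ K) (f τ)) :
    |(∫ x in p..q, ∏ τ ∈ I, f τ (Uf F.A₀ F.c τ x)) - (q - p) * ∏ τ ∈ I, ∫ t in (0 : ℝ)..1, f τ t| ≤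
      (1 / 2) ^ (11 * F.E K) * (q - p) + 2 ^ (F.C₀ * F.E K) * ℓ / ϑ :=
  core_gen hF hK (S.lo.trans h1) (h2.trans S.hi) hℓ
    ((mul_le_mul_of_nonneg_right (by linarith : ℓ ≤ ℓst) (by positivity)).trans S.sm)
    (fun x hx => S.nr x ⟨h1.trans hx.1, hx.2.trans h2⟩) hp hpq hq I hI hIT hϑ hV f hf

end Pool.Agent.Helper78.LD6
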