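import Pool.Agent.Helper32.LD6.Trig
import Pool.Agent.Helper77.LD6.T3
import Pool.Agent.Helper18.LD6.T4

set_option autoImplicit false

/-! # Project LD6: boxes and grid functions from exponential integrals (T2, T3, T4 together) -/

namespace Pool.Agent.Helper78.LD6

open Set MeasureTheory Filter Topology
open Pool.Agent.Helper41.LD6
open Pool.Agent.Helper59.RE (e)

theorem box_exp {ι : Type} [DecidableEq ι] (I : Finset ι) (u : ι → ℝ → ℝ) {p q δ ε : ℝ} (hpq : p ≤ q) (hu : ∀ k ∈ I, Measurable (u k))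
    (hδ : 0 < δ) (hδ1 : δ ≤ 1 / 8) (hδI : I.card * δ ≤ 1 / 4) {N : ℕ} (hN : 4 / (δ * N) ≤ δ) (hN1 : 1 ≤ N) (hε : 0 ≤ ε)
    (hexp : ∀ m : ι → ℤ, (∀ k ∈ I, |m k| ≤ N) → (∃ k ∈ I, m k ≠ 0) → ‖∫ x in p..q, e (∑ k ∈ I, m k * u k x)‖ ≤ ε)
    (α γ : ι → ℝ) (h : ∀ k ∈ I, 0 ≤ α k ∧ α k ≤ γ k ∧ γ k ≤ 1) :
    |(∫ x in p..q, ∏ k ∈ I, bx (α k) (γ k) (u k x)) - (q - p) * ∏ k ∈ I, (γ k - α k)| ≤
      8 * I.card * δ * (q - p) + (2 * (N : ℝ) + 1) ^ I.card * ε :=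
  Pool.Agent.Helper77.LD6.box_exp_of
    (fun h0 h1 h2 hδ hδ1 _ hN => Pool.Agent.Helper32.LD6.trig_app h0 h1 h2 hδ hδ1 hN)
    I u hpq hu hδ hδ1 hδI hN hN1 hε hexp α γ h

theorem box_grid {ι : Type} [DecidableEq ι] (I : Finset ι) (u : ι → ℝ → ℝ) {p q δ ε : ℝ} (hpq : p ≤ q) (hu : ∀ k ∈ I, Measurable (u k))
    (hδ : 0 < δ) (hδ1 : δ ≤ 1 / 8) (hδI : I.card * δ ≤ 1 / 4) {N : ℕ} (hN : 4 / (δ * N) ≤ δ) (hN1 : 1 ≤ N) (hε : 0 ≤ ε)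
    (hexp : ∀ m : ι → ℤ, (∀ k ∈ I, |m k| ≤ N) → (∃ k ∈ I, m k ≠ 0) → ‖∫ x in p..q, e (∑ k ∈ I, m k * u k x)‖ ≤ ε)
    {N₀ : ℕ} (hN₀ : 1 ≤ N₀) (f : ι → ℝ → ℝ) (hf : ∀ k ∈ I, Gr N₀ (f k)) :
    |(∫ x in p..q, ∏ k ∈ I, f k (u k x)) - (q - p) * ∏ k ∈ I, ∫ t in (0 : ℝ)..1, f k t| ≤
      (N₀ : ℝ) ^ I.card * (8 * I.card * δ * (q - p) + (2 * (N : ℝ) + 1) ^ I.card * ε) :=
  Pool.Agent.Helper18.LD6.box_grid_of I u hu hN₀ f hf fun α γ h =>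
    box_exp I u hpq hu hδ hδ1 hδI hN hN1 hε hexp α γ h

end Pool.Agent.Helper78.LD6
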