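import Mathlib

set_option autoImplicit false

/-! Equidistribution of a nonresonant linear flow on a torus, for products of step functions. -/

namespace Pool.Agent.Helper78.LD6

open Set MeasureTheory

/-- a step function of period 1 on the grid `1 / N₀`, at most 1 in absolute value -/
structure St (N₀ : ℕ) (f : ℝ → ℝ) : Prop where
  meas : Measurable f
  bdd : ∀ x, |f x| ≤ 1
  per : Function.Periodic f 1
  grid : ∀ s t : ℝ, ⌊(N₀ : ℝ) * s⌋ = ⌊(N₀ : ℝ) * t⌋ → f s = f t

/-- the exponential -/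
noncomputable def ek (k : ℤ) (t : ℝ) : ℂ := Complex.exp (2 * Real.pi * Complex.I * k * t)

/-- the coefficient -/
noncomputable def fc (f : ℝ → ℝ) (k : ℤ) : ℂ := ∫ t in (0 : ℝ)..1, ek (-k) t * (f t : ℂ)

theorem ek_norm (k : ℤ) (t : ℝ) : ‖ek k t‖ = 1 := by
  unfold ek
  have : (2 * Real.pi * Complex.I * k * t : ℂ) = ((2 * Real.pi * k * t : ℝ) : ℂ) * Complex.I := by
    push_cast
    ring
  rw [this, Complex.norm_exp_ofReal_mul_I]

theorem ek_cont (k : ℤ) : Continuous (ek k) := by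
  unfold ek
  fun_prop

theorem ek_zero (t : ℝ) : ek 0 t = 1 := by
  simp [ek]

theorem ek_mul (k l : ℤ) (t : ℝ) : ek k t * ek l t = ek (k + l) t := by
  unfold ek
  rw [← Complex.exp_add]
  congr 1
  push_cast
  ring

theorem ek_per (k : ℤ) : Function.Periodic (ek k) 1 := by
  intro t
  unfold ek
  have : (2 * Real.pi * Complex.I * k * ((t + 1 : ℝ) : ℂ) : ℂ) =
      2 * Real.pi * Complex.I * k * t + k * (2 * Real.pi * Complex.I) := by
    push_cast
    ring
  rw [this]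
  exact Complex.exp_periodic.int_mul k _

/-- the integral of an exponential with a real frequency -/
theorem int_exp_le {w : ℝ} (hw : w ≠ 0) (c p q : ℝ) :
    ‖∫ x in p..q, Complex.exp (2 * Real.pi * Complex.I * (w * x + c))‖ ≤ 1 / |w| := by
  have hne : (2 * Real.pi * Complex.I * w : ℂ) ≠ 0 := by
    have h1 : (Real.pi : ℂ) ≠ 0 := by exact_mod_cast Real.pi_ne_zero
    have h2 : (w : ℂ) ≠ 0 := by exact_mod_cast hw
    simp [h1, h2]
  have h : ∀ x : ℝ, Complex.exp (2 * Real.pi * Complex.I * (w * x + c)) =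
      Complex.exp (2 * Real.pi * Complex.I * c) * Complex.exp ((2 * Real.pi * Complex.I * w) * x) := by
    intro x
    rw [← Complex.exp_add]
    congr 1
    ring
  simp_rw [h]
  rw [intervalIntegral.integral_const_mul, integral_exp_mul_complex hne, norm_mul, norm_div]
  have h1 : ‖Complex.exp (2 * Real.pi * Complex.I * c)‖ = 1 := by
    have : (2 * Real.pi * Complex.I * c : ℂ) = ((2 * Real.pi * c : ℝ) : ℂ) * Complex.I := by
      push_cast
      ring
    rw [this, Complex.norm_exp_ofReal_mul_I]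
  have h2 : ∀ x : ℝ, ‖Complex.exp ((2 * Real.pi * Complex.I * w) * x)‖ = 1 := by
    intro x
    have : ((2 * Real.pi * Complex.I * w) * x : ℂ) = ((2 * Real.pi * w * x : ℝ) : ℂ) * Complex.I := by
      push_cast
      ring
    rw [this, Complex.norm_exp_ofReal_mul_I]
  have h3 : ‖(2 * Real.pi * Complex.I * w : ℂ)‖ = 2 * Real.pi * |w| := by
    simp [abs_of_pos Real.pi_pos]
  rw [h1, h3, one_mul]
  have hwpos : 0 < |w| := abs_pos.2 hw
  have h4 : ‖Complex.exp ((2 * Real.pi * Complex.I * w) * q) - Complex.exp ((2 * Real.pi * Complex.I * w) * p)‖ ≤ 2 := by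
    refine (norm_sub_le _ _).trans ?_
    rw [h2, h2]
    norm_num
  rw [div_le_div_iff₀ (by positivity) hwpos]
  have := Real.pi_gt_three
  nlinarith

theorem int_ek_le {k : ℤ} (hk : k ≠ 0) (p q : ℝ) : ‖∫ x in p..q, ek k x‖ ≤ 1 / |(k : ℝ)| := by
  have h := int_exp_le (w := (k : ℝ)) (by exact_mod_cast hk) 0 p q
  refine le_trans (le_of_eq ?_) h
  congr 2
  ext x
  unfold ek
  congr 1
  push_cast
  ring

theorem int_ek_one (k : ℤ) : ∫ x in (0 : ℝ)..1, ek k x = if k = 0 then 1 else 0 := by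
  split_ifs with h
  · subst h
    simp [ek_zero]
  · have hne : (2 * Real.pi * Complex.I * k : ℂ) ≠ 0 := by
      have h1 : (Real.pi : ℂ) ≠ 0 := by exact_mod_cast Real.pi_ne_zero
      have h2 : (k : ℂ) ≠ 0 := by exact_mod_cast h
      simp [h1, h2]
    unfold ek
    rw [integral_exp_mul_complex hne]
    have : (2 * Real.pi * Complex.I * k * ((1 : ℝ) : ℂ) : ℂ) = k * (2 * Real.pi * Complex.I) := by
      push_cast
      ring
    rw [this, Complex.exp_int_mul_two_pi_mul_I]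
    simp

variable {N₀ : ℕ} {f : ℝ → ℝ}

theorem St.ii (h : St N₀ f) (p q : ℝ) : IntervalIntegrable f volume p q := by
  rw [intervalIntegrable_iff]
  exact Measure.integrableOn_of_bounded (M := 1) (by simp) h.meas.aestronglyMeasurable
    (Filter.Eventually.of_forall fun x => by rw [Real.norm_eq_abs]; exact h.bdd x)

theorem St.iic (h : St N₀ f) (p q : ℝ) : IntervalIntegrable (fun t => (f t : ℂ)) volume p q := by
  rw [intervalIntegrable_iff]
  exact Measure.integrableOn_of_bounded (M := 1) (by simp) (Complex.measurable_ofReal.comp h.meas).aestronglyMeasurable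
    (Filter.Eventually.of_forall fun x => by simpa using h.bdd x)

theorem fc_zero (f : ℝ → ℝ) : fc f 0 = ((∫ t in (0 : ℝ)..1, f t : ℝ) : ℂ) := by
  unfold fc
  simp only [neg_zero, ek_zero, one_mul]
  exact intervalIntegral.integral_ofReal

theorem fc_le_one (h : St N₀ f) (k : ℤ) : ‖fc f k‖ ≤ 1 := by
  unfold fc
  have := intervalIntegral.norm_integral_le_of_norm_le_const (a := (0 : ℝ)) (b := 1) (C := 1)
    (f := fun t => ek (-k) t * (f t : ℂ)) (by
      intro t _
      rw [norm_mul, ek_norm, one_mul]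
      simpa using h.bdd t)
  simpa using this

theorem fc_le (h : St N₀ f) (hN : 1 ≤ N₀) {k : ℤ} (hk : k ≠ 0) : ‖fc f k‖ ≤ N₀ / |(k : ℝ)| := by
  unfold fc
  have hN' : (0 : ℝ) < N₀ := by exact_mod_cast hN
  have hint : ∀ p q : ℝ, IntervalIntegrable (fun t => ek (-k) t * (f t : ℂ)) volume p q := fun p q =>
    (h.iic p q).continuousOn_mul (ek_cont _).continuousOn
  have hsum : ∫ t in (0 : ℝ)..1, ek (-k) t * (f t : ℂ) =
      ∑ c ∈ Finset.range N₀, ∫ t in ((c : ℝ) / N₀)..(((c + 1 : ℕ) : ℝ) / N₀), ek (-k) t * (f t : ℂ) := by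
    have := intervalIntegral.sum_integral_adjacent_intervals (a := fun c : ℕ => (c : ℝ) / N₀) (n := N₀)
      (f := fun t => ek (-k) t * (f t : ℂ)) (μ := volume) (fun c _ => hint _ _)
    rw [this]
    simp [hN'.ne']
  rw [hsum]
  have hcell : ∀ c ∈ Finset.range N₀, ‖∫ t in ((c : ℝ) / N₀)..(((c + 1 : ℕ) : ℝ) / N₀), ek (-k) t * (f t : ℂ)‖ ≤ 1 / |(k : ℝ)| := by
    intro c _
    have h1 : ∫ t in ((c : ℝ) / N₀)..(((c + 1 : ℕ) : ℝ) / N₀), ek (-k) t * (f t : ℂ) =
        ∫ t in ((c : ℝ) / N₀)..(((c + 1 : ℕ) : ℝ) / N₀), ek (-k) t * (f ((c : ℝ) / N₀) : ℂ) := by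
      have hle : ((c : ℝ) / N₀) ≤ (((c + 1 : ℕ) : ℝ) / N₀) := by
        gcongr
        simp
      rw [intervalIntegral.integral_of_le hle, intervalIntegral.integral_of_le hle,
        integral_Ioc_eq_integral_Ioo, integral_Ioc_eq_integral_Ioo]
      apply setIntegral_congr_fun measurableSet_Ioo
      intro t ht
      have hfl : f t = f ((c : ℝ) / N₀) := by
        apply h.grid
        have e1 : (N₀ : ℝ) * ((c : ℝ) / N₀) = c := by field_simp
        rw [e1, Int.floor_natCast, Int.floor_eq_iff]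
        have e2 := ht.1
        have e3 := ht.2
        rw [div_lt_iff₀ hN'] at e2
        rw [lt_div_iff₀ hN'] at e3
        push_cast at e3 ⊢
        constructor
        · linarith
        · linarith
      simp only [hfl]
    rw [h1, intervalIntegral.integral_mul_const, norm_mul]
    have h2 := int_ek_le (k := -k) (neg_ne_zero.2 hk) ((c : ℝ) / N₀) (((c + 1 : ℕ) : ℝ) / N₀)
    have h3 : ‖(f ((c : ℝ) / N₀) : ℂ)‖ ≤ 1 := by simpa using h.bdd _
    have h4 : |((-k : ℤ) : ℝ)| = |(k : ℝ)| := by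
      push_cast
      exact abs_neg _
    rw [h4] at h2
    calc _ ≤ (1 / |(k : ℝ)|) * 1 := by gcongr
      _ = _ := by ring
  refine (norm_sum_le _ _).trans ((Finset.sum_le_sum hcell).trans ?_)
  rw [Finset.sum_const, Finset.card_range, nsmul_eq_mul]
  exact le_of_eq (by ring)

theorem sum_symm (φ : ℕ → ℝ) (H : ℕ) :
    ∑ k ∈ Finset.Icc (-(H : ℤ)) H, φ k.natAbs = φ 0 + 2 * ∑ k ∈ Finset.Icc 1 H, φ k := by
  induction H with
  | zero => simp
  | succ H ih =>
    have h1 : Finset.Icc (-((H + 1 : ℕ) : ℤ)) ((H + 1 : ℕ) : ℤ) =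
        insert ((H + 1 : ℕ) : ℤ) (insert (-((H + 1 : ℕ) : ℤ)) (Finset.Icc (-(H : ℤ)) H)) := by
      ext k
      simp only [Finset.mem_Icc, Finset.mem_insert]
      push_cast
      omega
    rw [h1, Finset.sum_insert, Finset.sum_insert, ih, Finset.sum_Icc_succ_top (by omega)]
    · have e1 : ((H + 1 : ℕ) : ℤ).natAbs = H + 1 := Int.natAbs_natCast _
      have e2 : (-((H + 1 : ℕ) : ℤ)).natAbs = H + 1 := by rw [Int.natAbs_neg]; exact e1
      rw [e1, e2]
      ring
    · simp only [Finset.mem_Icc]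
      push_cast
      omega
    · simp only [Finset.mem_Icc, Finset.mem_insert]
      push_cast
      omega

/-- the partial sum -/
noncomputable def S (f : ℝ → ℝ) (H : ℕ) (t : ℝ) : ℂ := ∑ k ∈ Finset.Icc (-(H : ℤ)) H, fc f k * ek k t

theorem S_cont (f : ℝ → ℝ) (H : ℕ) : Continuous (S f H) := by
  unfold S
  exact continuous_finsetSum _ fun k _ => continuous_const.mul (ek_cont k)

theorem S_per (f : ℝ → ℝ) (H : ℕ) : Function.Periodic (S f H) 1 := by
  intro t
  unfold S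
  apply Finset.sum_congr rfl
  intro k _
  rw [ek_per k t]

theorem sum_fc_le (h : St N₀ f) (hN : 1 ≤ N₀) (h' : ℕ) :
    ∑ k ∈ Finset.Icc (-((4 ^ h' : ℕ) : ℤ)) ((4 ^ h' : ℕ) : ℤ), ‖fc f k‖ ≤ 4 * N₀ * (h' + 1) := by
  have hN' : (1 : ℝ) ≤ N₀ := by exact_mod_cast hN
  let φ : ℕ → ℝ := fun k => if k = 0 then 1 else N₀ / k
  have h1 : ∀ k ∈ Finset.Icc (-((4 ^ h' : ℕ) : ℤ)) ((4 ^ h' : ℕ) : ℤ), ‖fc f k‖ ≤ φ k.natAbs := by
    intro k _
    simp only [φ]
    split_ifs with hk
    · exact fc_le_one h k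
    · have hk' : k ≠ 0 := fun e => hk (by simp [e])
      have := fc_le h hN hk'
      rwa [← Int.cast_abs, Int.abs_eq_natAbs, Int.cast_natCast] at this
  refine (Finset.sum_le_sum h1).trans ?_
  rw [sum_symm]
  have h2 : ∑ k ∈ Finset.Icc 1 (4 ^ h'), φ k = N₀ * (harmonic (4 ^ h') : ℝ) := by
    rw [harmonic_eq_sum_Icc]
    push_cast
    rw [Finset.mul_sum]
    apply Finset.sum_congr rfl
    intro k hk
    have : k ≠ 0 := by
      have := (Finset.mem_Icc.1 hk).1
      omega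
    simp only [φ, if_neg this]
    rw [div_eq_mul_inv]
  rw [h2]
  have h3 := harmonic_le_one_add_log (4 ^ h')
  have h4 : Real.log ((4 ^ h' : ℕ) : ℝ) ≤ 3 / 2 * h' := by
    push_cast
    rw [Real.log_pow]
    have : Real.log 4 ≤ 3 / 2 := by
      have e : (4 : ℝ) = 2 ^ 2 := by norm_num
      rw [e, Real.log_pow]
      have := Real.log_two_lt_d9
      push_cast
      linarith
    have h5 : (0 : ℝ) ≤ h' := Nat.cast_nonneg _
    nlinarith
  have h5 : (0 : ℝ) ≤ h' := Nat.cast_nonneg _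
  simp only [φ, if_pos]
  have h6 : (N₀ : ℝ) * (harmonic (4 ^ h') : ℝ) ≤ N₀ * (1 + 3 / 2 * h') := by
    gcongr
    linarith
  nlinarith

theorem S_norm_le (h : St N₀ f) (hN : 1 ≤ N₀) (h' : ℕ) (t : ℝ) : ‖S f (4 ^ h') t‖ ≤ 4 * N₀ * (h' + 1) := by
  refine le_trans ?_ (sum_fc_le h hN h')
  unfold S
  refine (norm_sum_le _ _).trans (le_of_eq ?_)
  apply Finset.sum_congr rfl
  intro k _
  rw [norm_mul, ek_norm, mul_one]

theorem four_eq (g : ℝ → ℂ) (k : ℤ) :
    fourierCoeffOn zero_lt_one g k = ∫ t in (0 : ℝ)..1, ek (-k) t * g t := by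
  rw [fourierCoeffOn_eq_integral]
  simp only [sub_zero, div_one, one_smul, smul_eq_mul]
  apply intervalIntegral.integral_congr
  intro t _
  simp only
  congr 1
  have := @fourier_coe_apply (1 - 0 : ℝ) (-k) t
  rw [this]
  unfold ek
  congr 1
  push_cast
  ring

theorem four_rem (h : St N₀ f) (H : ℕ) (k : ℤ) :
    fourierCoeffOn zero_lt_one (fun t => (f t : ℂ) - S f H t) k =
      if k ∈ Finset.Icc (-(H : ℤ)) H then 0 else fc f k := by
  rw [four_eq]
  have h1 : ∀ t : ℝ, ek (-k) t * ((f t : ℂ) - S f H t) =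
      ek (-k) t * (f t : ℂ) - ∑ j ∈ Finset.Icc (-(H : ℤ)) H, fc f j * ek (j - k) t := by
    intro t
    rw [mul_sub]
    congr 1
    unfold S
    rw [Finset.mul_sum]
    apply Finset.sum_congr rfl
    intro j _
    rw [sub_eq_add_neg, ← ek_mul]
    ring
  simp_rw [h1]
  have hi1 : IntervalIntegrable (fun t => ek (-k) t * (f t : ℂ)) volume 0 1 :=
    (h.iic 0 1).continuousOn_mul (ek_cont _).continuousOn
  have hi2 : ∀ j ∈ Finset.Icc (-(H : ℤ)) H, IntervalIntegrable (fun t => fc f j * ek (j - k) t) volume 0 1 :=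
    fun j _ => (continuous_const.mul (ek_cont _)).intervalIntegrable _ _
  have hi3 : IntervalIntegrable (fun t => ∑ j ∈ Finset.Icc (-(H : ℤ)) H, fc f j * ek (j - k) t) volume 0 1 := by
    apply Continuous.intervalIntegrable
    exact continuous_finsetSum _ fun j _ => continuous_const.mul (ek_cont _)
  rw [intervalIntegral.integral_sub hi1 hi3, intervalIntegral.integral_finsetSum hi2]
  have h2 : ∀ j ∈ Finset.Icc (-(H : ℤ)) H, ∫ t in (0 : ℝ)..1, fc f j * ek (j - k) t = if j = k then fc f k else 0 := by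
    intro j _
    rw [intervalIntegral.integral_const_mul, int_ek_one]
    by_cases hjk : j = k
    · simp [hjk]
    · rw [if_neg hjk, if_neg (sub_ne_zero.2 hjk), mul_zero]
  rw [Finset.sum_congr rfl h2, Finset.sum_ite_eq']
  split_ifs
  · simp [fc]
  · simp [fc]

theorem int_sq_le (h : St N₀ f) (hN : 1 ≤ N₀) {H : ℕ} (hH : 1 ≤ H) :
    ∫ t in (0 : ℝ)..1, ‖(f t : ℂ) - S f H t‖ ^ 2 ≤ 2 * (N₀ : ℝ) ^ 2 / H := by
  have hN' : (0 : ℝ) < N₀ := by exact_mod_cast hN
  have hH' : (0 : ℝ) < H := by exact_mod_cast hH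
  have hmeas : AEStronglyMeasurable (fun t => (f t : ℂ) - S f H t) (volume.restrict (Ioc 0 1)) :=
    ((Complex.measurable_ofReal.comp h.meas).sub (S_cont f H).measurable).aestronglyMeasurable
  obtain ⟨C, hC⟩ : ∃ C, ∀ t, ‖S f H t‖ ≤ C := by
    refine ⟨∑ k ∈ Finset.Icc (-(H : ℤ)) H, ‖fc f k‖, fun t => ?_⟩
    unfold S
    refine (norm_sum_le _ _).trans (le_of_eq ?_)
    apply Finset.sum_congr rfl
    intro k _
    rw [norm_mul, ek_norm, mul_one]
  have hL2 : MemLp (fun t => (f t : ℂ) - S f H t) 2 (volume.restrict (Ioc 0 1)) := by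
    apply MemLp.of_bound hmeas (1 + C)
    refine Filter.Eventually.of_forall fun t => ?_
    refine (norm_sub_le _ _).trans (add_le_add ?_ (hC t))
    simpa using h.bdd t
  have hs := hasSum_sq_fourierCoeffOn zero_lt_one hL2
  simp only [sub_zero, inv_one, one_smul] at hs
  refine hasSum_le_of_sum_le hs ?_
  intro s
  -- embed in a symmetric interval
  let φ : ℕ → ℝ := fun k => if k ≤ H then 0 else (N₀ : ℝ) ^ 2 / (k : ℝ) ^ 2
  have hφ0 : ∀ k, 0 ≤ φ k := by
    intro k
    simp only [φ]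
    split_ifs
    · exact le_rfl
    · positivity
  have hle : ∀ k : ℤ, ‖fourierCoeffOn zero_lt_one (fun t => (f t : ℂ) - S f H t) k‖ ^ 2 ≤ φ k.natAbs := by
    intro k
    rw [four_rem h]
    split_ifs with hk
    · simpa using hφ0 _
    · have hk1 : ¬ k.natAbs ≤ H := by
        intro hle
        apply hk
        rw [Finset.mem_Icc]
        omega
      have hk0 : k ≠ 0 := by
        intro e
        apply hk1
        simp [e]
      simp only [φ, if_neg hk1]
      have := fc_le h hN hk0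
      rw [← Int.cast_abs, Int.abs_eq_natAbs, Int.cast_natCast] at this
      calc ‖fc f k‖ ^ 2 ≤ ((N₀ : ℝ) / k.natAbs) ^ 2 := by gcongr
        _ = _ := by rw [div_pow]
  obtain ⟨R, hR⟩ : ∃ R : ℕ, s ⊆ Finset.Icc (-(R : ℤ)) R := by
    refine ⟨s.sup Int.natAbs, ?_⟩
    intro k hk
    have : k.natAbs ≤ s.sup Int.natAbs := Finset.le_sup hk
    rw [Finset.mem_Icc]
    omega
  have htel : ∀ R : ℕ, ∑ k ∈ Finset.Icc 1 R, φ k ≤ (N₀ : ℝ) ^ 2 * (1 / H - 1 / max (R : ℝ) (H : ℝ)) := by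
    intro R
    induction R with
    | zero =>
      have : (max ((0 : ℕ) : ℝ) (H : ℝ)) = H := by
        apply max_eq_right
        simp
      rw [this]
      simp
    | succ R ih =>
      rw [Finset.sum_Icc_succ_top (by omega)]
      by_cases hRH : R + 1 ≤ H
      · have e1 : φ (R + 1) = 0 := by simp only [φ, if_pos hRH]
        have e2 : (max ((R : ℕ) : ℝ) (H : ℝ)) = H := max_eq_right (by exact_mod_cast (by omega : R ≤ H))
        have e3 : (max ((R + 1 : ℕ) : ℝ) (H : ℝ)) = H := max_eq_right (by exact_mod_cast hRH)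
        rw [e1, e3, add_zero]
        rw [e2] at ih
        exact ih
      · have hHR : H ≤ R := by omega
        have hR0 : (0 : ℝ) < R := by
          have : 1 ≤ R := by omega
          exact_mod_cast this
        have e1 : φ (R + 1) = (N₀ : ℝ) ^ 2 / ((R + 1 : ℕ) : ℝ) ^ 2 := by simp only [φ, if_neg hRH]
        have e2 : (max ((R : ℕ) : ℝ) (H : ℝ)) = R := max_eq_left (by exact_mod_cast hHR)
        have e3 : (max ((R + 1 : ℕ) : ℝ) (H : ℝ)) = ((R + 1 : ℕ) : ℝ) := max_eq_left (by exact_mod_cast (by omega : H ≤ R + 1))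
        rw [e2] at ih
        rw [e1, e3]
        have e4 : (1 : ℝ) / ((R + 1 : ℕ) : ℝ) ^ 2 ≤ 1 / R - 1 / ((R + 1 : ℕ) : ℝ) := by
          push_cast
          rw [div_sub_div _ _ hR0.ne' (by positivity), div_le_div_iff₀ (by positivity) (by positivity)]
          nlinarith
        have e5 : (N₀ : ℝ) ^ 2 / ((R + 1 : ℕ) : ℝ) ^ 2 ≤ (N₀ : ℝ) ^ 2 * (1 / R - 1 / ((R + 1 : ℕ) : ℝ)) := by
          rw [div_eq_mul_one_div]
          gcongr
        calc _ ≤ (N₀ : ℝ) ^ 2 * (1 / H - 1 / R) + (N₀ : ℝ) ^ 2 * (1 / R - 1 / ((R + 1 : ℕ) : ℝ)) := add_le_add ih e5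
          _ = _ := by ring
  calc ∑ k ∈ s, ‖fourierCoeffOn zero_lt_one (fun t => (f t : ℂ) - S f H t) k‖ ^ 2
      ≤ ∑ k ∈ s, φ k.natAbs := Finset.sum_le_sum fun k _ => hle k
    _ ≤ ∑ k ∈ Finset.Icc (-(R : ℤ)) R, φ k.natAbs := Finset.sum_le_sum_of_subset_of_nonneg hR fun k _ _ => hφ0 _
    _ = φ 0 + 2 * ∑ k ∈ Finset.Icc 1 R, φ k := sum_symm φ R
    _ ≤ 0 + 2 * ((N₀ : ℝ) ^ 2 * (1 / H)) := by
        have e0 : φ 0 = 0 := by simp [φ]
        rw [e0]
        have := htel R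
        have h5 : 0 ≤ (N₀ : ℝ) ^ 2 * (1 / max (R : ℝ) (H : ℝ)) := by positivity
        have h6 : (N₀ : ℝ) ^ 2 * (1 / H - 1 / max (R : ℝ) (H : ℝ)) = (N₀ : ℝ) ^ 2 * (1 / H) - (N₀ : ℝ) ^ 2 * (1 / max (R : ℝ) (H : ℝ)) := by ring
        rw [h6] at this
        linarith
    _ = _ := by ring

theorem int_abs_le (h : St N₀ f) (hN : 1 ≤ N₀) (h' : ℕ) :
    ∫ t in (0 : ℝ)..1, ‖(f t : ℂ) - S f (4 ^ h') t‖ ≤ 2 * N₀ * (1 / 2) ^ h' := by
  have hN' : (0 : ℝ) < N₀ := by exact_mod_cast hN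
  have h1 := int_sq_le h hN (H := 4 ^ h') (Nat.one_le_pow _ _ (by norm_num))
  set g : ℝ → ℝ := fun t => ‖(f t : ℂ) - S f (4 ^ h') t‖ with hg
  have hgm : Measurable g := (((Complex.measurable_ofReal.comp h.meas).sub (S_cont f _).measurable)).norm
  obtain ⟨C, hC⟩ : ∃ C : ℝ, ∀ t, g t ≤ C := by
    refine ⟨1 + 4 * N₀ * (h' + 1), fun t => ?_⟩
    refine (norm_sub_le _ _).trans (add_le_add ?_ (S_norm_le h hN h' t))
    simpa using h.bdd t
  have hg0 : ∀ t, 0 ≤ g t := fun t => norm_nonneg _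
  have hgi : IntervalIntegrable g volume 0 1 := by
    rw [intervalIntegrable_iff]
    exact Measure.integrableOn_of_bounded (M := C) (by simp) hgm.aestronglyMeasurable
      (Filter.Eventually.of_forall fun x => by rw [Real.norm_eq_abs, abs_of_nonneg (hg0 x)]; exact hC x)
  have hg2i : IntervalIntegrable (fun t => g t ^ 2) volume 0 1 := by
    rw [intervalIntegrable_iff]
    exact Measure.integrableOn_of_bounded (M := C ^ 2) (by simp) (hgm.pow_const 2).aestronglyMeasurable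
      (Filter.Eventually.of_forall fun x => by
        rw [Real.norm_eq_abs, abs_of_nonneg (by positivity)]
        exact pow_le_pow_left₀ (hg0 x) (hC x) 2)
  set c : ℝ := 2 * N₀ * (1 / 2) ^ h' with hc
  have hcpos : 0 < c := by positivity
  -- g ≤ c / 2 + g ^ 2 / (2 c)
  have hpt : ∀ t ∈ Icc (0 : ℝ) 1, g t ≤ c / 2 + g t ^ 2 * (1 / (2 * c)) := by
    intro t _
    have : 0 ≤ (g t - c) ^ 2 := sq_nonneg _
    have h2 : c / 2 + g t ^ 2 * (1 / (2 * c)) = (c ^ 2 + g t ^ 2) / (2 * c) := by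
      field_simp
    rw [h2, le_div_iff₀ (by positivity)]
    nlinarith
  have h2 : ∫ t in (0 : ℝ)..1, g t ≤ ∫ t in (0 : ℝ)..1, (c / 2 + g t ^ 2 * (1 / (2 * c))) :=
    intervalIntegral.integral_mono_on zero_le_one hgi
      ((intervalIntegrable_const).add (hg2i.mul_const _)) hpt
  rw [intervalIntegral.integral_add intervalIntegrable_const (hg2i.mul_const _),
    intervalIntegral.integral_mul_const] at h2
  simp only [intervalIntegral.integral_const, sub_zero, one_smul] at h2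
  refine h2.trans ?_
  have h3 : (2 : ℝ) * (N₀ : ℝ) ^ 2 / ((4 ^ h' : ℕ) : ℝ) = c ^ 2 / 2 := by
    rw [hc]
    push_cast
    have e : ((1 : ℝ) / 2) ^ h' * (1 / 2) ^ h' = 1 / 4 ^ h' := by
      rw [← mul_pow, ← one_div_pow]
      norm_num
    have e2 : (2 * (N₀ : ℝ) * (1 / 2) ^ h') ^ 2 = 4 * (N₀ : ℝ) ^ 2 * ((1 / 2) ^ h' * (1 / 2) ^ h') := by ring
    rw [e2, e]
    ring
  rw [h3] at h1
  calc c / 2 + (∫ t in (0 : ℝ)..1, g t ^ 2) * (1 / (2 * c)) ≤ c / 2 + (c ^ 2 / 2) * (1 / (2 * c)) := by gcongr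
    _ ≤ c := by
        have : (c ^ 2 / 2) * (1 / (2 * c)) = c / 4 := by field_simp; ring
        rw [this]
        linarith

/-! ## The flow -/

theorem flow_one {g : ℝ → ℝ} (hg0 : ∀ t, 0 ≤ g t) (hper : Function.Periodic g 1)
    (hgi : ∀ p q : ℝ, IntervalIntegrable g volume p q) {V c a ℓ : ℝ} (hV : 0 < V) (hVℓ : 1 ≤ V * ℓ) :
    ∫ x in a..(a + ℓ), g (V * x + c) ≤ 2 * ℓ * ∫ t in (0 : ℝ)..1, g t := by
  have h0 : 0 ≤ ∫ t in (0 : ℝ)..1, g t := intervalIntegral.integral_nonneg zero_le_one fun t _ => hg0 t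
  rw [intervalIntegral.integral_comp_mul_add g hV.ne' c, smul_eq_mul]
  set p := V * a + c with hp
  have e1 : V * (a + ℓ) + c = p + V * ℓ := by rw [hp]; ring
  rw [e1]
  have h1 : ∫ t in p..(p + V * ℓ), g t ≤ ∫ t in p..(p + (⌈V * ℓ⌉₊ : ℝ)), g t := by
    apply intervalIntegral.integral_mono_interval le_rfl (by linarith) (by linarith [Nat.le_ceil (V * ℓ)])
    · exact Filter.Eventually.of_forall fun t => hg0 t
    · exact hgi _ _
  have h2 : ∫ t in p..(p + (⌈V * ℓ⌉₊ : ℝ)), g t = ⌈V * ℓ⌉₊ * ∫ t in (0 : ℝ)..1, g t := by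
    have := hper.intervalIntegral_add_zsmul_eq (⌈V * ℓ⌉₊ : ℤ) p (fun a b => hgi a b)
    simp only [zsmul_eq_mul, Int.cast_natCast, mul_one] at this
    rw [this, hper.intervalIntegral_add_eq p 0, zero_add]
  rw [h2] at h1
  have h3 : (⌈V * ℓ⌉₊ : ℝ) ≤ 2 * (V * ℓ) := by
    have := (Nat.ceil_lt_add_one (a := V * ℓ) (by linarith)).le
    linarith
  calc V⁻¹ * ∫ t in p..(p + V * ℓ), g t ≤ V⁻¹ * (2 * (V * ℓ) * ∫ t in (0 : ℝ)..1, g t) := by
        gcongr
        exact h1.trans (mul_le_mul_of_nonneg_right h3 h0)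
    _ = _ := by
        field_simp

theorem prod_close {ι : Type*} [DecidableEq ι] (s : Finset ι) {x y : ι → ℂ} {P : ℝ} (hP : 1 ≤ P)
    (hx : ∀ i ∈ s, ‖x i‖ ≤ P) (hy : ∀ i ∈ s, ‖y i‖ ≤ P) :
    ‖∏ i ∈ s, x i - ∏ i ∈ s, y i‖ ≤ P ^ s.card * ∑ i ∈ s, ‖x i - y i‖ := by
  induction s using Finset.induction_on with
  | empty => simp
  | insert a s ha ih =>
    have ih' := ih (fun i hi => hx i (Finset.mem_insert_of_mem hi)) (fun i hi => hy i (Finset.mem_insert_of_mem hi))
    rw [Finset.prod_insert ha, Finset.prod_insert ha, Finset.sum_insert ha, Finset.card_insert_of_notMem ha]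
    have e : x a * ∏ i ∈ s, x i - y a * ∏ i ∈ s, y i =
        (x a - y a) * ∏ i ∈ s, x i + y a * (∏ i ∈ s, x i - ∏ i ∈ s, y i) := by ring
    have h1 : ‖∏ i ∈ s, x i‖ ≤ P ^ s.card := by
      rw [norm_prod]
      calc ∏ i ∈ s, ‖x i‖ ≤ ∏ _i ∈ s, P :=
            Finset.prod_le_prod (fun i _ => norm_nonneg _) fun i hi => hx i (Finset.mem_insert_of_mem hi)
        _ = _ := by rw [Finset.prod_const]
    have h2 := hy a (Finset.mem_insert_self a s)
    have h3 : 0 ≤ ∑ i ∈ s, ‖x i - y i‖ := Finset.sum_nonneg fun i _ => norm_nonneg _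
    have h4 : 0 ≤ P ^ s.card := by positivity
    have h5 : P ^ s.card ≤ P ^ s.card * P := le_mul_of_one_le_right h4 hP
    rw [e]
    calc _ ≤ ‖(x a - y a) * ∏ i ∈ s, x i‖ + ‖y a * (∏ i ∈ s, x i - ∏ i ∈ s, y i)‖ := norm_add_le _ _
      _ = ‖x a - y a‖ * ‖∏ i ∈ s, x i‖ + ‖y a‖ * ‖∏ i ∈ s, x i - ∏ i ∈ s, y i‖ := by rw [norm_mul, norm_mul]
      _ ≤ ‖x a - y a‖ * (P ^ s.card * P) + P * (P ^ s.card * ∑ i ∈ s, ‖x i - y i‖) := by
          gcongr
          exact h1.trans h5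
      _ = _ := by ring

/-- **Equidistribution of a nonresonant flow for products of step functions.** -/
theorem torus {ι : Type*} [Fintype ι] [DecidableEq ι] {N₀ h' : ℕ} (hN : 1 ≤ N₀) (f : ι → ℝ → ℝ) (hf : ∀ i, St N₀ (f i))
    (V c : ι → ℝ) {a ℓ δ : ℝ} (hV : ∀ i, 0 < V i) (hℓ : 0 < ℓ) (hVℓ : ∀ i, 1 ≤ V i * ℓ) (hδ : 0 < δ)
    (hnr : ∀ κ : ι → ℤ, (∀ i, |κ i| ≤ 4 ^ h') → κ ≠ 0 → δ ≤ |∑ i, (κ i : ℝ) * V i|) :
    |(∫ x in a..(a + ℓ), ∏ i, f i (V i * x + c i)) - ℓ * ∏ i, ∫ t in (0 : ℝ)..1, f i t| ≤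
      (4 * N₀ * (h' + 1) : ℝ) ^ Fintype.card ι * (4 * Fintype.card ι * N₀ * (1 / 2) ^ h' + 1 / (δ * ℓ)) * ℓ := by
  have hN' : (1 : ℝ) ≤ N₀ := by exact_mod_cast hN
  set P : ℝ := 4 * N₀ * (h' + 1) with hPdef
  have hP1 : 1 ≤ P := by
    have : (0 : ℝ) ≤ h' := Nat.cast_nonneg _
    rw [hPdef]
    nlinarith
  set d := Fintype.card ι with hd
  set H := 4 ^ h' with hH
  -- the two products
  let F : ℝ → ℂ := fun x => ∏ i, (f i (V i * x + c i) : ℂ)
  let T : ℝ → ℂ := fun x => ∏ i, S (f i) H (V i * x + c i)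
  have hFm : Measurable F := by
    apply Finset.measurable_fun_prod
    intro i _
    exact Complex.measurable_ofReal.comp ((hf i).meas.comp (by fun_prop))
  have hTc : Continuous T := by
    apply continuous_finsetProd
    intro i _
    exact (S_cont (f i) H).comp (by fun_prop)
  have hF1 : ∀ x, ‖F x‖ ≤ 1 := by
    intro x
    simp only [F]
    rw [norm_prod]
    apply Finset.prod_le_one (fun i _ => norm_nonneg _)
    intro i _
    simpa using (hf i).bdd _
  have hFi : IntervalIntegrable F volume a (a + ℓ) := by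
    rw [intervalIntegrable_iff]
    exact Measure.integrableOn_of_bounded (M := 1) (by simp) hFm.aestronglyMeasurable
      (Filter.Eventually.of_forall hF1)
  have hTi : IntervalIntegrable T volume a (a + ℓ) := hTc.intervalIntegrable _ _
  -- the remainder of one factor
  let g : ι → ℝ → ℝ := fun i t => ‖(f i t : ℂ) - S (f i) H t‖
  have hgm : ∀ i, Measurable (g i) := fun i =>
    (((Complex.measurable_ofReal.comp (hf i).meas).sub (S_cont (f i) _).measurable)).norm
  have hgb : ∀ i t, g i t ≤ 1 + P := by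
    intro i t
    refine (norm_sub_le _ _).trans (add_le_add ?_ (S_norm_le (hf i) hN h' t))
    simpa using (hf i).bdd t
  have hgi : ∀ i (p q : ℝ), IntervalIntegrable (g i) volume p q := by
    intro i p q
    rw [intervalIntegrable_iff]
    exact Measure.integrableOn_of_bounded (M := 1 + P) (by simp) (hgm i).aestronglyMeasurable
      (Filter.Eventually.of_forall fun x => by
        rw [Real.norm_eq_abs, abs_of_nonneg (norm_nonneg _)]
        exact hgb i x)
  have hgper : ∀ i, Function.Periodic (g i) 1 := by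
    intro i t
    simp only [g]
    rw [(hf i).per t, S_per (f i) H t]
  have hgui : ∀ i, IntervalIntegrable (fun x => g i (V i * x + c i)) volume a (a + ℓ) := by
    intro i
    rw [intervalIntegrable_iff]
    exact Measure.integrableOn_of_bounded (M := 1 + P) (by simp)
      ((hgm i).comp (by fun_prop : Measurable fun x : ℝ => V i * x + c i)).aestronglyMeasurable
      (Filter.Eventually.of_forall fun x => by
        rw [Real.norm_eq_abs, abs_of_nonneg (norm_nonneg _)]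
        exact hgb i _)
  have hstep1 : ‖(∫ x in a..(a + ℓ), F x) - ∫ x in a..(a + ℓ), T x‖ ≤ P ^ d * (d * (2 * ℓ * (2 * N₀ * (1 / 2) ^ h'))) := by
    rw [← intervalIntegral.integral_sub hFi hTi]
    have hle : a ≤ a + ℓ := by linarith
    have hb : ∀ x ∈ Ioc a (a + ℓ), ‖F x - T x‖ ≤ P ^ d * ∑ i, g i (V i * x + c i) := by
      intro x _
      have := prod_close (Finset.univ : Finset ι) (x := fun i => (f i (V i * x + c i) : ℂ))
        (y := fun i => S (f i) H (V i * x + c i)) hP1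
        (fun i _ => by
          have h1 : ‖(f i (V i * x + c i) : ℂ)‖ ≤ 1 := by simpa using (hf i).bdd _
          exact h1.trans hP1)
        (fun i _ => S_norm_le (hf i) hN h' _)
      exact this
    have hsi : IntervalIntegrable (fun x => ∑ i, g i (V i * x + c i)) volume a (a + ℓ) := by
      have := IntervalIntegrable.sum (Finset.univ : Finset ι) (f := fun i x => g i (V i * x + c i))
        (μ := volume) (a := a) (b := a + ℓ) (fun i _ => hgui i)
      refine this.congr_ae ?_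
      refine Filter.Eventually.of_forall fun x => ?_
      simp
    refine (intervalIntegral.norm_integral_le_of_norm_le hle (Filter.Eventually.of_forall fun x hx => hb x hx)
      (hsi.const_mul _)).trans ?_
    rw [intervalIntegral.integral_const_mul, intervalIntegral.integral_finsetSum fun i _ => hgui i]
    gcongr
    calc ∑ i, ∫ x in a..(a + ℓ), g i (V i * x + c i) ≤ ∑ _i : ι, 2 * ℓ * (2 * N₀ * (1 / 2) ^ h') := by
          apply Finset.sum_le_sum
          intro i _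
          refine (flow_one (fun t => norm_nonneg _) (hgper i) (hgi i) (hV i) (hVℓ i)).trans ?_
          have := int_abs_le (hf i) hN h'
          gcongr
      _ = _ := by
          rw [Finset.sum_const, Finset.card_univ, nsmul_eq_mul]
  -- the trigonometric part
  let K : Finset (ι → ℤ) := Fintype.piFinset fun _ => Finset.Icc (-(H : ℤ)) H
  have hexp : ∀ x, T x = ∑ κ ∈ K, (∏ i, fc (f i) (κ i)) *
      Complex.exp (2 * Real.pi * Complex.I * (((∑ i, (κ i : ℝ) * V i : ℝ) : ℂ) * x + ((∑ i, (κ i : ℝ) * c i : ℝ) : ℂ))) := by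
    intro x
    simp only [T, S]
    rw [Finset.prod_univ_sum]
    apply Finset.sum_congr rfl
    intro κ _
    rw [Finset.prod_mul_distrib]
    congr 1
    unfold ek
    rw [← Complex.exp_sum]
    congr 1
    push_cast
    rw [Finset.sum_mul, ← Finset.sum_add_distrib, Finset.mul_sum]
    apply Finset.sum_congr rfl
    intro i _
    ring
  have h0K : (0 : ι → ℤ) ∈ K := by
    rw [Fintype.mem_piFinset]
    intro i
    simp
  have hTint : ∫ x in a..(a + ℓ), T x = ∑ κ ∈ K, (∏ i, fc (f i) (κ i)) *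
      ∫ x in a..(a + ℓ), Complex.exp (2 * Real.pi * Complex.I * (((∑ i, (κ i : ℝ) * V i : ℝ) : ℂ) * x + ((∑ i, (κ i : ℝ) * c i : ℝ) : ℂ))) := by
    simp_rw [hexp]
    rw [intervalIntegral.integral_finsetSum]
    · apply Finset.sum_congr rfl
      intro κ _
      rw [intervalIntegral.integral_const_mul]
    · intro κ _
      apply Continuous.intervalIntegrable
      fun_prop
  have hzero : (∏ i, fc (f i) ((0 : ι → ℤ) i)) *
      ∫ x in a..(a + ℓ), Complex.exp (2 * Real.pi * Complex.I * (((∑ i, (((0 : ι → ℤ) i : ℤ) : ℝ) * V i : ℝ) : ℂ) * x +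
        ((∑ i, (((0 : ι → ℤ) i : ℤ) : ℝ) * c i : ℝ) : ℂ))) = ((ℓ * ∏ i, ∫ t in (0 : ℝ)..1, f i t : ℝ) : ℂ) := by
    simp only [Pi.zero_apply, Int.cast_zero, zero_mul, Finset.sum_const_zero, Complex.ofReal_zero, add_zero, mul_zero,
      Complex.exp_zero, fc_zero]
    rw [intervalIntegral.integral_const]
    push_cast
    simp only [add_sub_cancel_left, Complex.real_smul, mul_one]
    ring
  have hstep2 : ‖(∫ x in a..(a + ℓ), T x) - ((ℓ * ∏ i, ∫ t in (0 : ℝ)..1, f i t : ℝ) : ℂ)‖ ≤ P ^ d * (1 / δ) := by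
    rw [hTint, ← Finset.add_sum_erase K _ h0K, hzero, add_sub_cancel_left]
    refine (norm_sum_le _ _).trans ?_
    have hb : ∀ κ ∈ K.erase 0, ‖(∏ i, fc (f i) (κ i)) *
        ∫ x in a..(a + ℓ), Complex.exp (2 * Real.pi * Complex.I * (((∑ i, (κ i : ℝ) * V i : ℝ) : ℂ) * x + ((∑ i, (κ i : ℝ) * c i : ℝ) : ℂ)))‖ ≤
        (∏ i, ‖fc (f i) (κ i)‖) * (1 / δ) := by
      intro κ hκ
      rw [Finset.mem_erase] at hκ
      have h1 := hnr κ (fun i => by
        have := Fintype.mem_piFinset.1 hκ.2 i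
        rw [Finset.mem_Icc] at this
        rw [abs_le]
        push_cast [hH] at this ⊢
        exact this) hκ.1
      have h2 : (∑ i, (κ i : ℝ) * V i) ≠ 0 := by
        intro e
        rw [e, abs_zero] at h1
        linarith
      rw [norm_mul, norm_prod]
      have h3 := int_exp_le h2 (∑ i, (κ i : ℝ) * c i) a (a + ℓ)
      have h4 : 1 / |∑ i, (κ i : ℝ) * V i| ≤ 1 / δ := by gcongr
      exact mul_le_mul_of_nonneg_left (h3.trans h4) (Finset.prod_nonneg fun i _ => norm_nonneg _)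
    refine (Finset.sum_le_sum hb).trans ?_
    rw [← Finset.sum_mul]
    gcongr
    calc ∑ κ ∈ K.erase 0, ∏ i, ‖fc (f i) (κ i)‖ ≤ ∑ κ ∈ K, ∏ i, ‖fc (f i) (κ i)‖ :=
          Finset.sum_le_sum_of_subset_of_nonneg (Finset.erase_subset _ _) fun κ _ _ =>
            Finset.prod_nonneg fun i _ => norm_nonneg _
      _ = ∏ i, ∑ k ∈ Finset.Icc (-(H : ℤ)) H, ‖fc (f i) k‖ := by
          rw [Finset.prod_univ_sum]
      _ ≤ ∏ _i : ι, P := by
          apply Finset.prod_le_prod
          · intro i _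
            exact Finset.sum_nonneg fun k _ => norm_nonneg _
          · intro i _
            exact sum_fc_le (hf i) hN h'
      _ = P ^ d := by rw [Finset.prod_const, Finset.card_univ]
  have hreal : ∫ x in a..(a + ℓ), F x = ((∫ x in a..(a + ℓ), ∏ i, f i (V i * x + c i) : ℝ) : ℂ) := by
    rw [← intervalIntegral.integral_ofReal]
    apply intervalIntegral.integral_congr
    intro x _
    simp only [F]
    push_cast
    rfl
  have hfin : ‖(((∫ x in a..(a + ℓ), ∏ i, f i (V i * x + c i)) - ℓ * ∏ i, ∫ t in (0 : ℝ)..1, f i t : ℝ) : ℂ)‖ ≤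
      P ^ d * (d * (2 * ℓ * (2 * N₀ * (1 / 2) ^ h'))) + P ^ d * (1 / δ) := by
    have e : (((∫ x in a..(a + ℓ), ∏ i, f i (V i * x + c i)) - ℓ * ∏ i, ∫ t in (0 : ℝ)..1, f i t : ℝ) : ℂ) =
        ((∫ x in a..(a + ℓ), F x) - ∫ x in a..(a + ℓ), T x) +
          ((∫ x in a..(a + ℓ), T x) - ((ℓ * ∏ i, ∫ t in (0 : ℝ)..1, f i t : ℝ) : ℂ)) := by
      rw [hreal, Complex.ofReal_sub]
      ring
    rw [e]
    exact (norm_add_le _ _).trans (add_le_add hstep1 hstep2)
  rw [Complex.norm_real, Real.norm_eq_abs] at hfin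
  refine hfin.trans (le_of_eq ?_)
  have : 1 / (δ * ℓ) * ℓ = 1 / δ := by field_simp
  calc _ = P ^ d * (4 * d * N₀ * (1 / 2) ^ h' * ℓ + 1 / δ) := by ring
    _ = P ^ d * (4 * d * N₀ * (1 / 2) ^ h' * ℓ + 1 / (δ * ℓ) * ℓ) := by rw [this]
    _ = _ := by ring

end Pool.Agent.Helper78.LD6
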