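import Mathlib

set_option autoImplicit false

/-! Few-term polynomials with coefficients at least one in absolute value are not small outside few short intervals. -/

namespace Pool.Agent.Helper78.LD6

open Set Finset

/-- Extension step: a differentiable function whose derivative is at least `κ` outside of the
intervals around `E` is at least `κ ρ / 2` outside of twice as many intervals. -/
theorem cover_step {f f' : ℝ → ℝ} {κ ρ : ℝ} (hκ : 0 < κ) (hρ : 0 < ρ) (E : Finset ℝ)
    (hf : ∀ x, 1 ≤ x → HasDerivAt f (f' x) x)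
    (h : ∀ x, 1 ≤ x → (∀ y ∈ E, x ∉ Icc (y - ρ) (y + ρ)) → κ ≤ |f' x|) :
    ∃ E' : Finset ℝ, E'.card ≤ 2 * E.card + 1 ∧ E ⊆ E' ∧
      ∀ x, 1 ≤ x → (∀ y ∈ E', x ∉ Icc (y - ρ) (y + ρ)) → κ * (ρ / 2) ≤ |f x| := by
  classical
  -- the component number
  let N : ℝ → ℕ := fun x => (E.filter fun y => y < x).card
  let Bad : ℝ → Prop := fun x => 1 ≤ x ∧ (∀ y ∈ E, x ∉ Icc (y - ρ) (y + ρ)) ∧ |f x| < κ * (ρ / 2)
  let ctr : ℕ → ℝ := fun c => if hc : ∃ x, Bad x ∧ N x = c then hc.choose else 0
  have hctr : ∀ c, (∃ x, Bad x ∧ N x = c) → Bad (ctr c) ∧ N (ctr c) = c := by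
    intro c hc
    simp only [ctr, dif_pos hc]
    exact hc.choose_spec
  have hNle : ∀ x, N x ≤ E.card := fun x => Finset.card_filter_le _ _
  -- two bad points of the same component are close
  have key : ∀ x z, Bad x → Bad z → N x = N z → x < z → z - x ≤ ρ := by
    intro x z hx hz hN hxz
    have hsub : (E.filter fun y => y < x) ⊆ (E.filter fun y => y < z) := by
      intro y hy
      rw [Finset.mem_filter] at hy ⊢
      exact ⟨hy.1, hy.2.trans hxz⟩
    have heq : (E.filter fun y => y < x) = (E.filter fun y => y < z) :=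
      Finset.eq_of_subset_of_card_le hsub (le_of_eq hN.symm)
    have hout : ∀ t, t ∈ Icc x z → ∀ y ∈ E, t ∉ Icc (y - ρ) (y + ρ) := by
      intro t ht y hy hty
      by_cases hyx : y < x
      · have h1 := hx.2.1 y hy
        apply h1
        exact ⟨by linarith [hρ], by linarith [ht.1, hty.2]⟩
      · have hyz : ¬ y < z := by
          intro hyz
          have : y ∈ (E.filter fun y => y < z) := Finset.mem_filter.2 ⟨hy, hyz⟩
          rw [← heq, Finset.mem_filter] at this
          exact hyx this.2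
        have h2 := hz.2.1 y hy
        apply h2
        push Not at hyz
        exact ⟨by linarith [ht.2, hty.1], by linarith [hρ]⟩
    have hcont : ContinuousOn f (Icc x z) := fun t ht =>
      (hf t (hx.1.trans ht.1)).continuousAt.continuousWithinAt
    obtain ⟨t, ht, hft⟩ := exists_hasDerivAt_eq_slope f f' hxz hcont
      (fun t ht => hf t (hx.1.trans ht.1.le))
    have hk := h t (hx.1.trans ht.1.le) (hout t ⟨ht.1.le, ht.2.le⟩)
    rw [hft, abs_div, abs_of_pos (sub_pos.2 hxz), le_div_iff₀ (sub_pos.2 hxz)] at hk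
    have h3 : |f z - f x| < κ * ρ := by
      have := abs_sub (f z) (f x)
      have h4 := hx.2.2
      have h5 := hz.2.2
      nlinarith [abs_sub (f z) (f x), abs_nonneg (f z), abs_nonneg (f x)]
    have h6 : κ * (z - x) < κ * ρ := lt_of_le_of_lt hk h3
    exact (lt_of_mul_lt_mul_left h6 hκ.le).le
  refine ⟨E ∪ (Finset.range (E.card + 1)).image ctr, ?_, Finset.subset_union_left, ?_⟩
  · calc (E ∪ (Finset.range (E.card + 1)).image ctr).card
        ≤ E.card + ((Finset.range (E.card + 1)).image ctr).card := Finset.card_union_le _ _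
      _ ≤ E.card + (E.card + 1) := by
          gcongr
          exact Finset.card_image_le.trans (by simp)
      _ = 2 * E.card + 1 := by ring
  · intro x hx1 hx
    by_contra hlt
    push Not at hlt
    have hbad : Bad x := ⟨hx1, fun y hy => hx y (Finset.mem_union_left _ hy), hlt⟩
    have hc := hctr (N x) ⟨x, hbad, rfl⟩
    have hmem : ctr (N x) ∈ E ∪ (Finset.range (E.card + 1)).image ctr := by
      apply Finset.mem_union_right
      exact Finset.mem_image_of_mem _ (Finset.mem_range.2 (Nat.lt_succ_of_le (hNle x)))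
    apply hx _ hmem
    rcases lt_trichotomy x (ctr (N x)) with h1 | h1 | h1
    · have := key x _ hbad hc.1 hc.2.symm h1
      exact ⟨by linarith, by linarith⟩
    · rw [← h1]
      exact ⟨by linarith, by linarith⟩
    · have := key _ x hc.1 hbad hc.2 h1
      exact ⟨by linarith, by linarith⟩

/-- One polynomial with `n + 1` terms and coefficients at least one in absolute value. -/
theorem poly_cover (n : ℕ) : ∀ (I : Finset ℕ) (c : ℕ → ℝ), I.card = n + 1 → (∀ i ∈ I, 1 ≤ |c i|) →
    ∀ ρ : ℝ, 0 < ρ → ∃ E : Finset ℝ, E.card + 1 ≤ 2 ^ n ∧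
      ∀ x, 1 ≤ x → (∀ y ∈ E, x ∉ Icc (y - ρ) (y + ρ)) → (ρ / 2) ^ n ≤ |∑ i ∈ I, c i * x ^ i| := by
  classical
  induction n with
  | zero =>
    intro I c hI hc ρ hρ
    obtain ⟨a, rfl⟩ := Finset.card_eq_one.1 hI
    refine ⟨∅, by simp, ?_⟩
    intro x hx _
    rw [Finset.sum_singleton, abs_mul, pow_zero]
    have h1 := hc a (Finset.mem_singleton_self a)
    have h2 : 1 ≤ |x ^ a| := by
      rw [abs_pow, abs_of_nonneg (by linarith)]
      exact one_le_pow₀ hx
    nlinarith
  | succ n ih =>
    intro I c hI hc ρ hρ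
    have hne : I.Nonempty := by
      rw [← Finset.card_pos, hI]
      omega
    set a := I.min' hne with ha
    have haI : a ∈ I := Finset.min'_mem I hne
    set J := I.erase a with hJ
    have hJc : J.card = n + 1 := by
      rw [hJ, Finset.card_erase_of_mem haI, hI]
      omega
    have haJ : ∀ i ∈ J, a < i := by
      intro i hi
      rw [hJ, Finset.mem_erase] at hi
      exact lt_of_le_of_ne (Finset.min'_le I i hi.2) (Ne.symm hi.1)
    -- the derivative of the quotient
    let J' : Finset ℕ := J.image fun i => i - a - 1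
    have hinj : Set.InjOn (fun i => i - a - 1) (J : Set ℕ) := by
      intro i hi j hj hij
      have h1 := haJ i hi
      have h2 := haJ j hj
      simp only at hij
      omega
    have hJ'c : J'.card = n + 1 := by
      rw [Finset.card_image_of_injOn hinj, hJc]
    let c' : ℕ → ℝ := fun k => c (k + a + 1) * ((k : ℝ) + 1)
    have hc' : ∀ k ∈ J', 1 ≤ |c' k| := by
      intro k hk
      obtain ⟨i, hi, rfl⟩ := Finset.mem_image.1 hk
      have h1 := haJ i hi
      have h2 : i - a - 1 + a + 1 = i := by omega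
      simp only [c', h2, abs_mul]
      have h3 := hc i (Finset.mem_of_mem_erase hi)
      have h4 : 1 ≤ |(((i - a - 1 : ℕ) : ℝ) + 1)| := by
        rw [abs_of_nonneg (by positivity)]
        have : (0 : ℝ) ≤ ((i - a - 1 : ℕ) : ℝ) := Nat.cast_nonneg _
        linarith
      nlinarith
    obtain ⟨E, hE, hEx⟩ := ih J' c' hJ'c hc' ρ hρ
    let f : ℝ → ℝ := fun x => c a + ∑ i ∈ J, c i * x ^ (i - a)
    let f' : ℝ → ℝ := fun x => ∑ k ∈ J', c' k * x ^ k
    have hf : ∀ x, 1 ≤ x → HasDerivAt f (f' x) x := by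
      intro x _
      have h1 : HasDerivAt (fun x : ℝ => ∑ i ∈ J, c i * x ^ (i - a))
          (∑ i ∈ J, c i * (((i - a : ℕ) : ℝ) * x ^ (i - a - 1))) x := by
        apply HasDerivAt.fun_sum
        intro i _
        exact (hasDerivAt_pow (i - a) x).const_mul (c i)
      have h2 : f' x = ∑ i ∈ J, c i * (((i - a : ℕ) : ℝ) * x ^ (i - a - 1)) := by
        simp only [f', J']
        rw [Finset.sum_image hinj]
        apply Finset.sum_congr rfl
        intro i hi
        have h3 := haJ i hi
        have h4 : i - a - 1 + a + 1 = i := by omega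
        simp only [c', h4]
        have h5 : (((i - a - 1 : ℕ) : ℝ) + 1) = ((i - a : ℕ) : ℝ) := by
          have : i - a = (i - a - 1) + 1 := by omega
          rw [this]
          push_cast
          simp
        rw [h5]
        ring
      rw [h2]
      exact h1.const_add (c a)
    obtain ⟨E', hE'c, -, hE'⟩ := cover_step (f := f) (f' := f') (κ := (ρ / 2) ^ n) (ρ := ρ)
      (by positivity) hρ E hf hEx
    refine ⟨E', ?_, ?_⟩
    · have : E'.card + 1 ≤ 2 * (E.card + 1) := by omega
      calc E'.card + 1 ≤ 2 * (E.card + 1) := this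
        _ ≤ 2 * 2 ^ n := by gcongr
        _ = 2 ^ (n + 1) := by ring
    · intro x hx hxE
      have h1 := hE' x hx hxE
      have h2 : ∑ i ∈ I, c i * x ^ i = x ^ a * f x := by
        rw [← Finset.add_sum_erase I _ haI]
        simp only [f]
        rw [mul_add, Finset.mul_sum]
        congr 1
        · ring
        · apply Finset.sum_congr rfl
          intro i hi
          have h3 := haJ i hi
          have h4 : x ^ i = x ^ a * x ^ (i - a) := by
            rw [← pow_add]
            congr 1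
            omega
          rw [h4]
          ring
      rw [h2, abs_mul, pow_succ]
      have h5 : 1 ≤ |x ^ a| := by
        rw [abs_pow, abs_of_nonneg (by linarith)]
        exact one_le_pow₀ hx
      have h6 : 0 ≤ |f x| := abs_nonneg _
      nlinarith

/-- All integer polynomials with at most `M` terms, exponents at most `R` and coefficients at most
`H` in absolute value are at least `(ρ / 2) ^ M` outside of few intervals of radius `ρ ≤ 1`. -/
theorem nonres_cover (M R H : ℕ) {ρ : ℝ} (hρ : 0 < ρ) (hρ1 : ρ ≤ 1) :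
    ∃ E : Finset ℝ, E.card ≤ ((R + 1) * (2 * H + 1) + 1) ^ M * 2 ^ M ∧
      ∀ x, 1 ≤ x → (∀ y ∈ E, x ∉ Icc (y - ρ) (y + ρ)) →
        ∀ (I : Finset ℕ) (c : ℕ → ℤ), I.card ≤ M → (∀ i ∈ I, i ≤ R) → (∀ i ∈ I, |c i| ≤ H) →
          (∃ i ∈ I, c i ≠ 0) → (ρ / 2) ^ M ≤ |∑ i ∈ I, (c i : ℝ) * x ^ i| := by
  classical
  -- the codes: M letters, each a pair (exponent, coefficient) or nothing
  let A : Finset (Option (ℕ × ℤ)) := insert none (((Finset.range (R + 1)) ×ˢ (Finset.Icc (-(H : ℤ)) H)).image some)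
  have hA : A.card ≤ (R + 1) * (2 * H + 1) + 1 := by
    refine (Finset.card_insert_le _ _).trans ?_
    gcongr
    refine Finset.card_image_le.trans ?_
    rw [Finset.card_product, Finset.card_range, Int.card_Icc]
    gcongr
    omega
  -- for a code, the polynomial
  let P : Finset (Fin M → Option (ℕ × ℤ)) := Fintype.piFinset fun _ => A
  have hP : P.card ≤ ((R + 1) * (2 * H + 1) + 1) ^ M := by
    rw [Fintype.card_piFinset]
    simp only [Finset.prod_const, Finset.card_univ, Fintype.card_fin]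
    gcongr
  -- a set attached to (support, coefficients)
  have hex : ∀ (I : Finset ℕ) (c : ℕ → ℤ), I.card ≤ M → (∀ i ∈ I, c i ≠ 0) → I.Nonempty →
      ∃ E : Finset ℝ, E.card ≤ 2 ^ M ∧ ∀ x, 1 ≤ x → (∀ y ∈ E, x ∉ Icc (y - ρ) (y + ρ)) →
        (ρ / 2) ^ M ≤ |∑ i ∈ I, (c i : ℝ) * x ^ i| := by
    intro I c hIM hc hne
    have hpos : 0 < I.card := Finset.card_pos.2 hne
    obtain ⟨n, hn⟩ : ∃ n, I.card = n + 1 := ⟨I.card - 1, by omega⟩
    obtain ⟨E, hE, hEx⟩ := poly_cover n I (fun i => (c i : ℝ)) hn (by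
      intro i hi
      have := hc i hi
      have h1 : (1 : ℤ) ≤ |c i| := Int.one_le_abs this
      exact_mod_cast h1) ρ hρ
    refine ⟨E, ?_, ?_⟩
    · have : 2 ^ n ≤ 2 ^ M := Nat.pow_le_pow_right (by norm_num) (by omega)
      omega
    · intro x hx hxE
      refine le_trans ?_ (hEx x hx hxE)
      exact pow_le_pow_of_le_one (by positivity) (by linarith) (by omega)
  -- decode
  let sup : (Fin M → Option (ℕ × ℤ)) → Finset (ℕ × ℤ) := fun z =>
    Finset.univ.biUnion fun k => (z k).toFinset
  let Good : (Fin M → Option (ℕ × ℤ)) → Finset ℝ → Prop := fun z E =>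
    E.card ≤ 2 ^ M ∧ ∀ (I : Finset ℕ) (c : ℕ → ℤ), I.card ≤ M → (∀ i ∈ I, c i ≠ 0) → I.Nonempty →
      sup z = I.image (fun i => (i, c i)) → ∀ x, 1 ≤ x → (∀ y ∈ E, x ∉ Icc (y - ρ) (y + ρ)) →
        (ρ / 2) ^ M ≤ |∑ i ∈ I, (c i : ℝ) * x ^ i|
  have hGood : ∀ z, ∃ E, Good z E := by
    intro z
    by_cases h : ∃ (I : Finset ℕ) (c : ℕ → ℤ), I.card ≤ M ∧ (∀ i ∈ I, c i ≠ 0) ∧ I.Nonempty ∧
        sup z = I.image (fun i => (i, c i))
    · obtain ⟨I, c, hI, hc, hne, hs⟩ := h
      obtain ⟨E, hE, hEx⟩ := hex I c hI hc hne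
      refine ⟨E, hE, ?_⟩
      intro I₁ c₁ hI₁ hc₁ hne₁ hs₁ x hx hxE
      have hsum : ∀ (I : Finset ℕ) (c : ℕ → ℤ), ∑ i ∈ I, (c i : ℝ) * x ^ i =
          ∑ p ∈ I.image (fun i => (i, c i)), (p.2 : ℝ) * x ^ p.1 := by
        intro I c
        rw [Finset.sum_image]
        intro i _ j _ hij
        exact (Prod.ext_iff.1 hij).1
      have := hEx x hx hxE
      rw [hsum I c, ← hs, hs₁, ← hsum I₁ c₁] at this
      exact this
    · refine ⟨∅, by simp, ?_⟩
      intro I₁ c₁ hI₁ hc₁ hne₁ hs₁
      exact absurd ⟨I₁, c₁, hI₁, hc₁, hne₁, hs₁⟩ h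
  choose F hF using hGood
  refine ⟨P.biUnion F, ?_, ?_⟩
  · calc (P.biUnion F).card ≤ ∑ z ∈ P, (F z).card := Finset.card_biUnion_le
      _ ≤ ∑ z ∈ P, 2 ^ M := Finset.sum_le_sum fun z _ => (hF z).1
      _ = P.card * 2 ^ M := by rw [Finset.sum_const, smul_eq_mul]
      _ ≤ _ := by gcongr
  · intro x hx hxE I c hIM hIR hcH hne
    -- restrict to the support
    set I₀ := I.filter fun i => c i ≠ 0 with hI₀
    have hI₀c : I₀.card ≤ M := (Finset.card_filter_le _ _).trans hIM
    have hI₀ne : I₀.Nonempty := by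
      obtain ⟨i, hi, hci⟩ := hne
      exact ⟨i, Finset.mem_filter.2 ⟨hi, hci⟩⟩
    have hc₀ : ∀ i ∈ I₀, c i ≠ 0 := fun i hi => (Finset.mem_filter.1 hi).2
    have hsum : ∑ i ∈ I, (c i : ℝ) * x ^ i = ∑ i ∈ I₀, (c i : ℝ) * x ^ i := by
      rw [hI₀, Finset.sum_filter]
      apply Finset.sum_congr rfl
      intro i _
      split_ifs with h
      · rfl
      · push Not at h
        rw [h]
        simp
    rw [hsum]
    -- the code
    let e : I₀ ≃ Fin I₀.card := I₀.equivFin
    let z : Fin M → Option (ℕ × ℤ) := fun k =>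
      if hk : (k : ℕ) < I₀.card then some (((e.symm ⟨k, hk⟩ : I₀) : ℕ), c (e.symm ⟨k, hk⟩ : I₀)) else none
    have hz : z ∈ P := by
      rw [Fintype.mem_piFinset]
      intro k
      simp only [z]
      split_ifs with hk
      · apply Finset.mem_insert_of_mem
        apply Finset.mem_image_of_mem
        have hmem := (e.symm ⟨k, hk⟩).2
        have hmem' := (Finset.mem_filter.1 hmem).1
        rw [Finset.mem_product, Finset.mem_range, Finset.mem_Icc]
        exact ⟨Nat.lt_succ_of_le (hIR _ hmem'), abs_le.1 (hcH _ hmem')⟩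
      · exact Finset.mem_insert_self _ _
    have hs : sup z = I₀.image (fun i => (i, c i)) := by
      ext p
      simp only [sup, Finset.mem_biUnion, Finset.mem_univ, true_and, Option.mem_toFinset, Finset.mem_image]
      constructor
      · rintro ⟨k, hk⟩
        simp only [z] at hk
        split_ifs at hk with hk'
        · refine ⟨(e.symm ⟨k, hk'⟩ : I₀), (e.symm ⟨k, hk'⟩).2, ?_⟩
          rw [Option.mem_def] at hk
          exact Option.some_injective _ hk
        · simp at hk
      · rintro ⟨i, hi, rfl⟩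
        have hlt : ((e ⟨i, hi⟩ : Fin I₀.card) : ℕ) < M := lt_of_lt_of_le (e ⟨i, hi⟩).2 hI₀c
        refine ⟨⟨e ⟨i, hi⟩, hlt⟩, ?_⟩
        simp only [z]
        rw [dif_pos (e ⟨i, hi⟩).2]
        simp
    have := (hF z).2 I₀ c hI₀c hc₀ hI₀ne hs x hx (fun y hy => hxE y (Finset.mem_biUnion.2 ⟨z, hz, hy⟩))
    exact this

end Pool.Agent.Helper78.LD6
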