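import Pool.Agent.Helper78.LD6.NR
import Pool.Agent.Helper78.LD6.TOR

set_option autoImplicit false

/-! Products of step functions along the powers: the averages on short intervals without resonances. -/

namespace Pool.Agent.Helper78.LD6

open Set MeasureTheory

variable {N₀ : ℕ} {f : ℝ → ℝ}

/-- the points where the values differ are close to the grid -/
theorem st_near (hf : St N₀ f) (hN : 1 ≤ N₀) {S d η : ℝ} {x y : ℝ} (h : |y - (S * x + d)| ≤ η)
    (hne : f y ≠ f (S * x + d)) : ∃ n : ℤ, |N₀ * (S * x + d) - n| ≤ N₀ * η := by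
  have hN0 : (0 : ℝ) < N₀ := by exact_mod_cast hN
  have h1 : ⌊(N₀ : ℝ) * y⌋ ≠ ⌊(N₀ : ℝ) * (S * x + d)⌋ := fun e => hne (hf.grid _ _ e)
  have h2 := abs_le.1 h
  rcases lt_or_gt_of_ne h1 with h3 | h3
  · refine ⟨⌊(N₀ : ℝ) * (S * x + d)⌋, ?_⟩
    have h4 := Int.floor_le ((N₀ : ℝ) * (S * x + d))
    have h5 : (N₀ : ℝ) * y < ⌊(N₀ : ℝ) * (S * x + d)⌋ := Int.floor_lt.1 h3
    have h6 : (N₀ : ℝ) * (S * x + d) - N₀ * y ≤ N₀ * η := by
      rw [← mul_sub]
      exact mul_le_mul_of_nonneg_left (by linarith) hN0.le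
    rw [abs_of_nonneg (by linarith)]
    linarith
  · refine ⟨⌊(N₀ : ℝ) * y⌋, ?_⟩
    have h4 := Int.floor_le ((N₀ : ℝ) * y)
    have h5 : (N₀ : ℝ) * (S * x + d) < ⌊(N₀ : ℝ) * y⌋ := Int.floor_lt.1 h3
    have h6 : N₀ * y - (N₀ : ℝ) * (S * x + d) ≤ N₀ * η := by
      rw [← mul_sub]
      exact mul_le_mul_of_nonneg_left (by linarith) hN0.le
    rw [abs_of_nonpos (by linarith)]
    linarith

theorem ii_of_bdd {g : ℝ → ℝ} {C : ℝ} (hg : Measurable g) (hC : ∀ x, |g x| ≤ C) (p q : ℝ) :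
    IntervalIntegrable g volume p q := by
  rw [intervalIntegrable_iff]
  exact Measure.integrableOn_of_bounded (M := C) (by simp) hg.aestronglyMeasurable
    (Filter.Eventually.of_forall fun x => by rw [Real.norm_eq_abs]; exact hC x)

/-- a nearly linear argument -/
theorem st_close (hf : St N₀ f) (hN : 1 ≤ N₀) {U : ℝ → ℝ} (hU : Measurable U) {S d η a ℓ : ℝ} (hS : 0 < S) (hℓ : 0 < ℓ)
    (hSℓ : 1 ≤ S * ℓ) (hη : 0 ≤ η) (h : ∀ x ∈ Icc a (a + ℓ), |U x - (S * x + d)| ≤ η) :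
    ∫ x in a..(a + ℓ), |f (U x) - f (S * x + d)| ≤ 12 * N₀ * η * ℓ := by
  have hN0 : (0 : ℝ) < N₀ := by exact_mod_cast hN
  have hN1 : (1 : ℝ) ≤ N₀ := by exact_mod_cast hN
  have hm1 : Measurable fun x => f (S * x + d) := hf.meas.comp ((measurable_const_mul S).add_const d)
  have hm2 : Measurable fun x => f (U x) := hf.meas.comp hU
  have hm : Measurable fun x => |f (U x) - f (S * x + d)| := (continuous_abs.measurable).comp (hm2.sub hm1)
  have hb : ∀ x, |f (U x) - f (S * x + d)| ≤ 2 := fun x => by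
    have h1 := abs_sub (f (U x)) (f (S * x + d))
    have h2 := hf.bdd (U x)
    have h3 := hf.bdd (S * x + d)
    linarith
  by_cases hbig : 1 ≤ 6 * N₀ * η
  · have h1 := intervalIntegral.norm_integral_le_of_norm_le_const (a := a) (b := a + ℓ)
      (f := fun x => |f (U x) - f (S * x + d)|) (C := 2) fun x _ => by
        rw [Real.norm_eq_abs, abs_abs]
        exact hb x
    rw [Real.norm_eq_abs, add_sub_cancel_left, abs_of_pos hℓ] at h1
    have h2 := le_abs_self (∫ x in a..a + ℓ, |f (U x) - f (S * x + d)|)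
    nlinarith
  have hsm : 6 * N₀ * η < 1 := not_le.1 hbig
  set L : ℤ := ⌈(N₀ : ℝ) * (S * a + d) - N₀ * η⌉ with hL
  set R : ℤ := ⌊(N₀ : ℝ) * (S * (a + ℓ) + d) + N₀ * η⌋ with hR
  set J : ℤ → Set ℝ := fun n => Icc (((n - N₀ * η) / N₀ - d) / S) (((n + N₀ * η) / N₀ - d) / S) with hJ
  set T : Set ℝ := ⋃ n ∈ Finset.Icc L R, J n with hT
  have hTm : MeasurableSet T := Finset.measurableSet_biUnion _ fun n _ => measurableSet_Icc
  have hTv : volume T ≤ ENNReal.ofReal ((Finset.Icc L R).card * (2 * η / S)) := by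
    refine (measure_biUnion_finset_le _ _).trans ?_
    rw [ENNReal.ofReal_mul (by positivity), ENNReal.ofReal_natCast, ← nsmul_eq_mul]
    refine Finset.sum_le_card_nsmul _ _ _ fun n _ => ?_
    rw [hJ]
    show volume (Icc _ _) ≤ _
    rw [Real.volume_Icc]
    refine ENNReal.ofReal_le_ofReal (le_of_eq ?_)
    field_simp
    ring
  have hcard : ((Finset.Icc L R).card : ℝ) ≤ N₀ * (S * ℓ) + 2 * (N₀ * η) + 1 := by
    rw [Int.card_Icc]
    have h1 : ((R + 1 - L).toNat : ℝ) = ((max (R + 1 - L) 0 : ℤ) : ℝ) := by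
      rw [← Int.toNat_eq_max, Int.cast_natCast]
    rw [h1]
    push_cast
    have h2 := Int.floor_le ((N₀ : ℝ) * (S * (a + ℓ) + d) + N₀ * η)
    have h3 := Int.le_ceil ((N₀ : ℝ) * (S * a + d) - N₀ * η)
    rw [← hR] at h2
    rw [← hL] at h3
    refine max_le ?_ (by positivity)
    have h4 : (N₀ : ℝ) * (S * (a + ℓ) + d) = N₀ * (S * a + d) + N₀ * (S * ℓ) := by ring
    rw [h4] at h2
    linarith
  have hpt : ∀ x ∈ Icc a (a + ℓ), |f (U x) - f (S * x + d)| ≤ T.indicator (fun _ => (2 : ℝ)) x := by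
    intro x hx
    by_cases hxT : x ∈ T
    · rw [indicator_of_mem hxT]
      exact hb x
    · rw [indicator_of_notMem hxT]
      by_cases he : f (U x) = f (S * x + d)
      · rw [he, sub_self, abs_zero]
      · exfalso
        obtain ⟨n, hn⟩ := st_near hf hN (h x hx) he
        apply hxT
        have hn' := abs_le.1 hn
        rw [hT]
        refine mem_iUnion₂.2 ⟨n, ?_, ?_⟩
        · rw [Finset.mem_Icc, hL, hR, Int.ceil_le, Int.le_floor]
          have h1 : (N₀ : ℝ) * (S * a + d) ≤ N₀ * (S * x + d) :=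
            mul_le_mul_of_nonneg_left (by nlinarith [hx.1]) hN0.le
          have h2 : (N₀ : ℝ) * (S * x + d) ≤ N₀ * (S * (a + ℓ) + d) :=
            mul_le_mul_of_nonneg_left (by nlinarith [hx.2]) hN0.le
          constructor <;> linarith
        · rw [hJ]
          constructor
          · rw [div_le_iff₀ hS, sub_le_iff_le_add, div_le_iff₀ hN0]
            nlinarith
          · rw [le_div_iff₀ hS, le_sub_iff_add_le, le_div_iff₀ hN0]
            nlinarith
  have hii : IntervalIntegrable (fun x => |f (U x) - f (S * x + d)|) volume a (a + ℓ) :=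
    ii_of_bdd (C := 2) hm (fun x => by rw [abs_abs]; exact hb x) a (a + ℓ)
  have hit : IntervalIntegrable (T.indicator (fun _ => (2 : ℝ))) volume a (a + ℓ) := by
    rw [intervalIntegrable_iff_integrableOn_Ioc_of_le (by linarith)]
    exact (integrableOn_const (by simp)).indicator hTm
  have h1 := intervalIntegral.integral_mono_on (by linarith : a ≤ a + ℓ) hii hit hpt
  refine h1.trans ?_
  rw [intervalIntegral.integral_of_le (by linarith), setIntegral_indicator hTm, setIntegral_const, smul_eq_mul]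
  have h2 : volume.real (Ioc a (a + ℓ) ∩ T) ≤ (Finset.Icc L R).card * (2 * η / S) := by
    rw [Measure.real]
    refine ENNReal.toReal_le_of_le_ofReal (by positivity) ((measure_mono inter_subset_right).trans hTv)
  have h3 : ((Finset.Icc L R).card : ℝ) * (2 * η / S) ≤ (N₀ * (S * ℓ) + 2 * (N₀ * η) + 1) * (2 * η / S) :=
    mul_le_mul_of_nonneg_right hcard (by positivity)
  have h4 : (N₀ * (S * ℓ) + 2 * (N₀ * η) + 1) * (2 * η / S) ≤ 6 * N₀ * η * ℓ := by
    rw [mul_div_assoc', div_le_iff₀ hS]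
    have h5 : N₀ * (S * ℓ) + 2 * (N₀ * η) + 1 ≤ 3 * (N₀ * (S * ℓ)) := by nlinarith
    have h6 := mul_le_mul_of_nonneg_right h5 (by positivity : 0 ≤ 2 * η)
    refine h6.trans (le_of_eq ?_)
    ring
  linarith

/-- `prod_close` for real numbers at most 1 in absolute value -/
theorem prod_close_one {ι : Type*} [DecidableEq ι] (s : Finset ι) {x y : ι → ℝ} (hx : ∀ i ∈ s, |x i| ≤ 1) (hy : ∀ i ∈ s, |y i| ≤ 1) :
    |∏ i ∈ s, x i - ∏ i ∈ s, y i| ≤ ∑ i ∈ s, |x i - y i| := by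
  have := prod_close s (x := fun i => (x i : ℂ)) (y := fun i => (y i : ℂ)) (P := 1) le_rfl
    (fun i hi => by simpa using hx i hi) (fun i hi => by simpa using hy i hi)
  rw [one_pow, one_mul] at this
  have e1 : (∏ i ∈ s, (x i : ℂ)) - ∏ i ∈ s, (y i : ℂ) = ((∏ i ∈ s, x i - ∏ i ∈ s, y i : ℝ) : ℂ) := by
    push_cast
    rfl
  rw [e1, Complex.norm_real, Real.norm_eq_abs] at this
  refine this.trans (le_of_eq ?_)
  apply Finset.sum_congr rfl
  intro i _
  rw [← Complex.ofReal_sub, Complex.norm_real, Real.norm_eq_abs]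

/-- equidistribution along nearly linear functions -/
theorem torus_near {ι : Type*} [Fintype ι] [DecidableEq ι] {N₀ h' : ℕ} (hN : 1 ≤ N₀) (f : ι → ℝ → ℝ) (hf : ∀ i, St N₀ (f i))
    (U : ι → ℝ → ℝ) (hU : ∀ i, Measurable (U i)) (V c : ι → ℝ) {a ℓ δ η : ℝ} (hV : ∀ i, 0 < V i) (hℓ : 0 < ℓ)
    (hVℓ : ∀ i, 1 ≤ V i * ℓ) (hδ : 0 < δ) (hη : 0 ≤ η) (hlin : ∀ i, ∀ x ∈ Icc a (a + ℓ), |U i x - (V i * x + c i)| ≤ η)
    (hnr : ∀ κ : ι → ℤ, (∀ i, |κ i| ≤ 4 ^ h') → κ ≠ 0 → δ ≤ |∑ i, (κ i : ℝ) * V i|) :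
    |(∫ x in a..(a + ℓ), ∏ i, f i (U i x)) - ℓ * ∏ i, ∫ t in (0 : ℝ)..1, f i t| ≤
      ((4 * N₀ * (h' + 1) : ℝ) ^ Fintype.card ι * (4 * Fintype.card ι * N₀ * (1 / 2) ^ h' + 1 / (δ * ℓ)) +
        12 * Fintype.card ι * N₀ * η) * ℓ := by
  have h1 := torus (a := a) hN f hf V c hV hℓ hVℓ hδ hnr
  have hmU : ∀ i, Measurable fun x => f i (U i x) := fun i => (hf i).meas.comp (hU i)
  have hmV : ∀ i, Measurable fun x => f i (V i * x + c i) := fun i =>
    (hf i).meas.comp ((measurable_const_mul (V i)).add_const (c i))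
  have hb : ∀ (u : ι → ℝ), |∏ i, f i (u i)| ≤ 1 := by
    intro u
    rw [Finset.abs_prod]
    exact Finset.prod_le_one (fun i _ => abs_nonneg _) fun i _ => (hf i).bdd _
  have hi1 : IntervalIntegrable (fun x => ∏ i, f i (U i x)) volume a (a + ℓ) :=
    ii_of_bdd (C := 1) (Finset.measurable_fun_prod _ fun i _ => hmU i) (fun x => hb _) _ _
  have hi2 : IntervalIntegrable (fun x => ∏ i, f i (V i * x + c i)) volume a (a + ℓ) :=
    ii_of_bdd (C := 1) (Finset.measurable_fun_prod _ fun i _ => hmV i) (fun x => hb _) _ _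
  have hi3 : ∀ i, IntervalIntegrable (fun x => |f i (U i x) - f i (V i * x + c i)|) volume a (a + ℓ) := by
    intro i
    refine ii_of_bdd (C := 2) (g := fun x => |f i (U i x) - f i (V i * x + c i)|)
      ((continuous_abs.measurable).comp ((hmU i).sub (hmV i))) (fun x => ?_) _ _
    rw [abs_abs]
    have h1 := abs_sub (f i (U i x)) (f i (V i * x + c i))
    have h2 := (hf i).bdd (U i x)
    have h3 := (hf i).bdd (V i * x + c i)
    linarith
  have h2 : |(∫ x in a..(a + ℓ), ∏ i, f i (U i x)) - ∫ x in a..(a + ℓ), ∏ i, f i (V i * x + c i)| ≤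
      Fintype.card ι * (12 * N₀ * η * ℓ) := by
    rw [← intervalIntegral.integral_sub hi1 hi2]
    have hle : a ≤ a + ℓ := by linarith
    have hsi : IntervalIntegrable (fun x => ∑ i, |f i (U i x) - f i (V i * x + c i)|) volume a (a + ℓ) := by
      have := IntervalIntegrable.sum (Finset.univ : Finset ι) (f := fun i x => |f i (U i x) - f i (V i * x + c i)|)
        (μ := volume) (a := a) (b := a + ℓ) (fun i _ => hi3 i)
      refine this.congr_ae ?_
      refine Filter.Eventually.of_forall fun x => ?_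
      simp
    have h3 := intervalIntegral.norm_integral_le_of_norm_le hle
      (f := fun x => ∏ i, f i (U i x) - ∏ i, f i (V i * x + c i))
      (Filter.Eventually.of_forall fun x _ => by
        rw [Real.norm_eq_abs]
        exact prod_close_one Finset.univ (fun i _ => (hf i).bdd _) (fun i _ => (hf i).bdd _)) hsi
    rw [Real.norm_eq_abs] at h3
    refine h3.trans ?_
    rw [intervalIntegral.integral_finsetSum fun i _ => hi3 i]
    calc ∑ i, ∫ x in a..(a + ℓ), |f i (U i x) - f i (V i * x + c i)| ≤ ∑ _i : ι, 12 * N₀ * η * ℓ :=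
          Finset.sum_le_sum fun i _ => st_close (hf i) hN (hU i) (hV i) hℓ (hVℓ i) hη (hlin i)
      _ = _ := by rw [Finset.sum_const, Finset.card_univ, nsmul_eq_mul]
  have h3 := abs_sub_le (∫ x in a..(a + ℓ), ∏ i, f i (U i x)) (∫ x in a..(a + ℓ), ∏ i, f i (V i * x + c i))
    (ℓ * ∏ i, ∫ t in (0 : ℝ)..1, f i t)
  calc _ ≤ _ := h3
    _ ≤ Fintype.card ι * (12 * N₀ * η * ℓ) + _ := add_le_add h2 h1
    _ = _ := by ring

/-- cutting an interval into pieces of a fixed length -/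
theorem cut_le {g : ℝ → ℝ} (hg : Measurable g) (hb : ∀ x, |g x| ≤ 1) {π ε p q ℓ : ℝ} (hπ : |π| ≤ 1) (hε : 0 ≤ ε) (hpq : p ≤ q)
    (hℓ : 0 < ℓ) (h : ∀ a, p ≤ a → a + ℓ ≤ q → |(∫ x in a..(a + ℓ), g x) - ℓ * π| ≤ ε * ℓ) :
    |(∫ x in p..q, g x) - (q - p) * π| ≤ ε * (q - p) + 2 * ℓ := by
  have hii : ∀ a b : ℝ, IntervalIntegrable g volume a b := fun a b => ii_of_bdd hg hb a b
  set n := ⌊(q - p) / ℓ⌋₊ with hn
  have hn1 : (n : ℝ) * ℓ ≤ q - p := by
    have := Nat.floor_le (div_nonneg (sub_nonneg.2 hpq) hℓ.le)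
    rw [← hn, le_div_iff₀ hℓ] at this
    exact this
  have hn2 : q - p < (n + 1) * ℓ := by
    have := Nat.lt_floor_add_one ((q - p) / ℓ)
    rw [← hn, div_lt_iff₀ hℓ] at this
    exact this
  have hind : ∀ k : ℕ, k ≤ n → |(∫ x in p..(p + k * ℓ), g x) - k * ℓ * π| ≤ ε * (k * ℓ) := by
    intro k
    induction k with
    | zero => intro _; simp
    | succ k ih =>
      intro hk
      have ih' := ih (by omega)
      have hk' : ((k : ℝ) + 1) * ℓ ≤ q - p := by
        refine le_trans ?_ hn1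
        gcongr
        exact_mod_cast hk
      have h1 := h (p + k * ℓ) (by have : 0 ≤ (k : ℝ) * ℓ := by positivity
                                   linarith) (by linarith)
      have e1 : p + ((k + 1 : ℕ) : ℝ) * ℓ = p + k * ℓ + ℓ := by push_cast; ring
      rw [e1, ← intervalIntegral.integral_add_adjacent_intervals (hii p (p + k * ℓ)) (hii _ _)]
      have e2 : (∫ x in p..(p + k * ℓ), g x) + (∫ x in (p + k * ℓ)..(p + k * ℓ + ℓ), g x) - ((k + 1 : ℕ) : ℝ) * ℓ * π =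
          ((∫ x in p..(p + k * ℓ), g x) - k * ℓ * π) + ((∫ x in (p + k * ℓ)..(p + k * ℓ + ℓ), g x) - ℓ * π) := by
        push_cast
        ring
      rw [e2]
      refine (abs_add_le _ _).trans ((add_le_add ih' h1).trans (le_of_eq ?_))
      push_cast
      ring
  have h1 := hind n le_rfl
  rw [← intervalIntegral.integral_add_adjacent_intervals (hii p (p + n * ℓ)) (hii _ q)]
  have h2 : |∫ x in (p + n * ℓ)..q, g x| ≤ ℓ := by
    have := intervalIntegral.norm_integral_le_of_norm_le_const (a := p + n * ℓ) (b := q) (f := g) (C := 1)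
      (fun x _ => by rw [Real.norm_eq_abs]; exact hb x)
    have hlen : |q - (p + n * ℓ)| = q - (p + n * ℓ) := abs_of_nonneg (by linarith)
    rw [Real.norm_eq_abs, one_mul, hlen] at this
    linarith
  have h3 : |(q - p - n * ℓ) * π| ≤ ℓ := by
    rw [abs_mul, abs_of_nonneg (by linarith)]
    have h4 : q - p - n * ℓ ≤ ℓ := by linarith
    have h5 : 0 ≤ q - p - n * ℓ := by linarith
    nlinarith [abs_nonneg π]
  have e3 : (∫ x in p..(p + n * ℓ), g x) + (∫ x in (p + n * ℓ)..q, g x) - (q - p) * π =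
      ((∫ x in p..(p + n * ℓ), g x) - n * ℓ * π) + (∫ x in (p + n * ℓ)..q, g x) - (q - p - n * ℓ) * π := by ring
  rw [e3]
  have h6 := abs_sub (((∫ x in p..(p + n * ℓ), g x) - n * ℓ * π) + (∫ x in (p + n * ℓ)..q, g x)) ((q - p - n * ℓ) * π)
  have h7 := abs_add_le ((∫ x in p..(p + n * ℓ), g x) - n * ℓ * π) (∫ x in (p + n * ℓ)..q, g x)
  have h8 : ε * (n * ℓ) ≤ ε * (q - p) := mul_le_mul_of_nonneg_left hn1 hε
  linarith

/-! ## The powers -/

/-- no resonances at `x`: integer polynomials with at most `M` terms, exponents at most `R` and coefficients at most `2 ^ (C K)` -/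
def NRp (M R C D K : ℕ) (x : ℝ) : Prop :=
  ∀ (I : Finset ℕ) (c : ℕ → ℤ), I.card ≤ M → (∀ i ∈ I, i ≤ R) → (∀ i ∈ I, |c i| ≤ 2 ^ (C * K)) → (∃ i ∈ I, c i ≠ 0) →
    (1 / 2 : ℝ) ^ (D * K) ≤ |∑ i ∈ I, (c i : ℝ) * x ^ i|

/-- the derivative of `A x ^ (i + 1)` -/
noncomputable def V (A : ℝ) (i : ℕ) (x : ℝ) : ℝ := A * (i + 1) * x ^ i

theorem V_pos {A : ℝ} (hA : 0 < A) (i : ℕ) {x : ℝ} (hx : 1 ≤ x) : 0 < V A i x := by
  unfold V
  positivity

theorem V_mono_x {A : ℝ} (hA : 0 < A) (i : ℕ) {x y : ℝ} (hx : 1 ≤ x) (hxy : x ≤ y) : V A i x ≤ V A i y := by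
  unfold V
  gcongr

theorem V_mono_i {A : ℝ} (hA : 0 < A) {i j : ℕ} (hij : i ≤ j) {x : ℝ} (hx : 1 ≤ x) : V A i x ≤ V A j x := by
  unfold V
  have h1 : x ^ i ≤ x ^ j := pow_le_pow_right₀ hx hij
  have h2 : (i : ℝ) ≤ j := by exact_mod_cast hij
  gcongr

/-- the deviation of a power from its tangent -/
theorem tangent {A : ℝ} (hA : 0 < A) (i : ℕ) {a x : ℝ} (ha : 1 ≤ a) (hax : a ≤ x) :
    |A * x ^ (i + 1) - (V A i a * x + (A * a ^ (i + 1) - V A i a * a))| ≤ i * V A i x * (x - a) ^ 2 := by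
  have hx : 1 ≤ x := ha.trans hax
  -- x ^ (n + 1) - a ^ (n + 1) ≤ (n + 1) x ^ n (x - a)
  have key : ∀ n : ℕ, x ^ (n + 1) - a ^ (n + 1) ≤ (n + 1) * x ^ n * (x - a) := by
    intro n
    induction n with
    | zero => simp
    | succ n ih =>
      have e : x ^ (n + 1 + 1) - a ^ (n + 1 + 1) = x * (x ^ (n + 1) - a ^ (n + 1)) + a ^ (n + 1) * (x - a) := by ring
      rw [e]
      have h1 : a ^ (n + 1) ≤ x ^ (n + 1) := pow_le_pow_left₀ (by linarith) hax _
      have h2 : x * (x ^ (n + 1) - a ^ (n + 1)) ≤ x * ((n + 1) * x ^ n * (x - a)) :=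
        mul_le_mul_of_nonneg_left ih (by linarith)
      have h3 : a ^ (n + 1) * (x - a) ≤ x ^ (n + 1) * (x - a) := mul_le_mul_of_nonneg_right h1 (by linarith)
      push_cast
      calc _ ≤ x * ((n + 1) * x ^ n * (x - a)) + x ^ (n + 1) * (x - a) := add_le_add h2 h3
        _ = _ := by ring
  have key2 : x ^ i - a ^ i ≤ i * x ^ i * (x - a) := by
    rcases Nat.eq_zero_or_pos i with h0 | h0
    · subst h0
      simp
    · obtain ⟨n, rfl⟩ : ∃ n, i = n + 1 := ⟨i - 1, by omega⟩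
      refine (key n).trans ?_
      push_cast
      have h1 : x ^ n ≤ x ^ (n + 1) := pow_le_pow_right₀ hx (by omega)
      have h2 : 0 ≤ x - a := by linarith
      gcongr
  -- a lower bound: convexity
  have key3 : ∀ n : ℕ, (n + 1) * a ^ n * (x - a) ≤ x ^ (n + 1) - a ^ (n + 1) := by
    intro n
    induction n with
    | zero => simp
    | succ n ih =>
      have e : x ^ (n + 1 + 1) - a ^ (n + 1 + 1) = x * (x ^ (n + 1) - a ^ (n + 1)) + a ^ (n + 1) * (x - a) := by ring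
      rw [e]
      have h0 : 0 ≤ x - a := by linarith
      have h2 : a * ((n + 1) * a ^ n * (x - a)) ≤ x * (x ^ (n + 1) - a ^ (n + 1)) := by
        have h3 : 0 ≤ x ^ (n + 1) - a ^ (n + 1) := sub_nonneg.2 (pow_le_pow_left₀ (by linarith) hax _)
        calc a * ((n + 1) * a ^ n * (x - a)) ≤ a * (x ^ (n + 1) - a ^ (n + 1)) := mul_le_mul_of_nonneg_left ih (by linarith)
          _ ≤ _ := mul_le_mul_of_nonneg_right hax h3
      push_cast
      calc _ = a * ((n + 1) * a ^ n * (x - a)) + a ^ (n + 1) * (x - a) := by ring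
        _ ≤ _ := by linarith
  have e : A * x ^ (i + 1) - (V A i a * x + (A * a ^ (i + 1) - V A i a * a)) =
      A * ((x ^ (i + 1) - a ^ (i + 1)) - (i + 1) * a ^ i * (x - a)) := by
    unfold V
    ring
  rw [e, abs_mul, abs_of_pos hA, abs_of_nonneg (sub_nonneg.2 (key3 i))]
  have h1 := key i
  have h2 : 0 ≤ x - a := by linarith
  have h3 : (x ^ (i + 1) - a ^ (i + 1)) - (i + 1) * a ^ i * (x - a) ≤ (i + 1) * (x ^ i - a ^ i) * (x - a) := by
    have : (i + 1 : ℝ) * (x ^ i - a ^ i) * (x - a) = (i + 1) * x ^ i * (x - a) - (i + 1) * a ^ i * (x - a) := by ring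
    linarith
  have h4 : (i + 1 : ℝ) * (x ^ i - a ^ i) * (x - a) ≤ (i + 1) * (i * x ^ i * (x - a)) * (x - a) := by gcongr
  calc A * ((x ^ (i + 1) - a ^ (i + 1)) - (i + 1) * a ^ i * (x - a))
      ≤ A * ((i + 1) * (i * x ^ i * (x - a)) * (x - a)) := mul_le_mul_of_nonneg_left (h3.trans h4) hA.le
    _ = _ := by
        unfold V
        ring

/-- the slopes of the powers are not resonant -/
theorem slope_nr {A : ℝ} (hA : 0 < A) {M R H D K : ℕ} {I : Finset ℕ} (hI : I.card ≤ M) {i₀ : ℕ}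
    (hmin : ∀ i ∈ I, i₀ ≤ i) (hspan : ∀ i ∈ I, i ≤ i₀ + R) (h₀ : i₀ + 1 ≤ 2 ^ (3 * K)) (hsize : ∀ i ∈ I, i + 1 ≤ 2 ^ (3 * K)) {a : ℝ}
    (ha : 1 ≤ a) (hNR : NRp M R (2 * H + 3) D K a) {κ : I → ℤ} (hκ : ∀ i, |κ i| ≤ 4 ^ (H * K)) (hκ0 : κ ≠ 0) :
    V A i₀ a * (1 / 2) ^ ((D + 3) * K) ≤ |∑ i : I, (κ i : ℝ) * V A i a| := by
  classical
  -- the integer polynomial
  let c : ℕ → ℤ := fun j => if h : i₀ + j ∈ I then κ ⟨i₀ + j, h⟩ * ((i₀ + j + 1 : ℕ) : ℤ) else 0
  let J : Finset ℕ := I.image fun i => i - i₀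
  have hinj : Set.InjOn (fun i => i - i₀) (I : Set ℕ) := by
    intro i hi j hj hij
    have h1 := hmin i hi
    have h2 := hmin j hj
    simp only at hij
    omega
  have hci : ∀ i (hi : i ∈ I), c (i - i₀) = κ ⟨i, hi⟩ * ((i + 1 : ℕ) : ℤ) := by
    intro i hi
    have h1 := hmin i hi
    have h2 : i₀ + (i - i₀) = i := by omega
    have h3 : i₀ + (i - i₀) ∈ I := by rwa [h2]
    simp only [c]
    rw [dif_pos h3]
    congr 2
    · exact Subtype.ext h2
    · omega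
  have h1 := hNR J c (Finset.card_image_le.trans hI) (by
      intro j hj
      obtain ⟨i, hi, rfl⟩ := Finset.mem_image.1 hj
      have := hspan i hi
      omega) (by
      intro j hj
      obtain ⟨i, hi, rfl⟩ := Finset.mem_image.1 hj
      rw [hci i hi, abs_mul]
      have h2 := hκ ⟨i, hi⟩
      have h3 : |((i + 1 : ℕ) : ℤ)| ≤ 2 ^ (3 * K) := by
        rw [abs_of_nonneg (by positivity)]
        exact_mod_cast hsize i hi
      have h4 : (2 : ℤ) ^ ((2 * H + 3) * K) = 4 ^ (H * K) * 2 ^ (3 * K) := by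
        have : (4 : ℤ) = 2 ^ 2 := by norm_num
        rw [this, ← pow_mul, ← pow_add]
        congr 1
        ring
      rw [h4]
      exact mul_le_mul h2 h3 (abs_nonneg _) (by positivity)) (by
      obtain ⟨i, hi⟩ := Function.ne_iff.1 hκ0
      refine ⟨(i : ℕ) - i₀, Finset.mem_image_of_mem _ i.2, ?_⟩
      rw [hci i i.2]
      exact mul_ne_zero hi (by positivity))
  have hsum : ∑ j ∈ J, (c j : ℝ) * a ^ j = ∑ i : I, (κ i : ℝ) * ((i : ℕ) + 1) * a ^ ((i : ℕ) - i₀) := by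
    simp only [J]
    rw [Finset.sum_image hinj, ← Finset.sum_coe_sort I]
    apply Finset.sum_congr rfl
    intro i _
    rw [hci i i.2]
    push_cast
    ring
  have hV : ∑ i : I, (κ i : ℝ) * V A i a = A * a ^ i₀ * ∑ j ∈ J, (c j : ℝ) * a ^ j := by
    rw [hsum, Finset.mul_sum]
    apply Finset.sum_congr rfl
    intro i _
    unfold V
    have h2 := hmin i i.2
    have h3 : a ^ (i : ℕ) = a ^ i₀ * a ^ ((i : ℕ) - i₀) := by
      rw [← pow_add]
      congr 1
      omega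
    rw [h3]
    ring
  rw [hV, abs_mul, abs_of_nonneg (by positivity : 0 ≤ A * a ^ i₀)]
  have h5 : (i₀ + 1 : ℝ) * (1 / 2) ^ (3 * K) ≤ 1 := by
    have h6 : (i₀ + 1 : ℝ) ≤ 2 ^ (3 * K) := by exact_mod_cast h₀
    rw [one_div, inv_pow, ← div_eq_mul_inv, div_le_one (by positivity)]
    exact h6
  calc V A i₀ a * (1 / 2) ^ ((D + 3) * K) = A * a ^ i₀ * (1 / 2) ^ (D * K) * ((i₀ + 1 : ℝ) * (1 / 2) ^ (3 * K)) := by
        unfold V
        have : (D + 3) * K = D * K + 3 * K := by ring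
        rw [this, pow_add]
        ring
    _ ≤ A * a ^ i₀ * (1 / 2) ^ (D * K) * 1 := by gcongr
    _ = A * a ^ i₀ * (1 / 2) ^ (D * K) := by ring
    _ ≤ _ := by gcongr

/-- **The averages of the tensor tests.** -/
theorem ten {A : ℝ} (hA : 0 < A) {M R S E D K : ℕ} (hK : 2 ≤ K) (hM : 4 * M ≤ 2 ^ K)
    (hH : 4 * ((E + 2 * M + 4) * K + 1) ≤ 2 ^ K) {I : Finset ℕ} (hI : I.card ≤ M) {i₀ : ℕ}
    (hmin : ∀ i ∈ I, i₀ ≤ i) (hspan : ∀ i ∈ I, i ≤ i₀ + R) (h₀ : i₀ + 1 ≤ 2 ^ (3 * K)) (hsize : ∀ i ∈ I, i + 1 ≤ 2 ^ (3 * K))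
    (f : ℕ → ℝ → ℝ) (hf : ∀ i ∈ I, St (2 ^ K) (f i)) (c : ℕ → ℝ) {p q : ℝ} (hp : 1 ≤ p) (hpq : p ≤ q)
    (h2 : ∀ i ∈ I, q ^ i ≤ 2 * p ^ i) (hNR : ∀ x ∈ Icc p q, NRp M R (2 * (E + 2 * M + 4) + 3) D K x)
    (hspeed : p ^ R ≤ 2 ^ (S * K)) (hbig : 2 ^ ((2 * (E + D + 2 * M + 5) + S + 7 + E + 4) * K) ≤ V A i₀ p) :
    |(∫ x in p..q, ∏ i ∈ I, f i (A * x ^ (i + 1) + c i)) - (q - p) * ∏ i ∈ I, ∫ t in (0 : ℝ)..1, f i t| ≤
      (1 / 2) ^ (E * K) * (q - p) + 2 * (2 ^ ((E + D + 2 * M + 5) * K) / V A i₀ p) := by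
  classical
  set H := E + 2 * M + 4 with hHdef
  set L := E + D + 2 * M + 5 with hLdef
  have hV0 : 0 < V A i₀ p := V_pos hA _ hp
  set ℓ : ℝ := 2 ^ (L * K) / V A i₀ p with hℓdef
  have hℓ : 0 < ℓ := by positivity
  have hVℓ0 : V A i₀ p * ℓ = 2 ^ (L * K) := by
    rw [hℓdef]
    field_simp
  have hmeas : ∀ i ∈ I, Measurable fun x : ℝ => f i (A * x ^ (i + 1) + c i) := fun i hi =>
    (hf i hi).meas.comp (by fun_prop)
  refine cut_le (g := fun x => ∏ i ∈ I, f i (A * x ^ (i + 1) + c i)) (Finset.measurable_fun_prod I hmeas) ?_ ?_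
    (by positivity) hpq hℓ ?_
  · intro x
    rw [Finset.abs_prod]
    exact Finset.prod_le_one (fun i _ => abs_nonneg _) fun i hi => (hf i hi).bdd _
  · rw [Finset.abs_prod]
    refine Finset.prod_le_one (fun i _ => abs_nonneg _) fun i hi => ?_
    have := intervalIntegral.norm_integral_le_of_norm_le_const (a := (0 : ℝ)) (b := 1) (f := f i) (C := 1)
      (fun x _ => by rw [Real.norm_eq_abs]; exact (hf i hi).bdd x)
    simpa using this
  · intro a hpa haq
    have ha1 : 1 ≤ a := hp.trans hpa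
    have hVa : ∀ i ∈ I, V A i₀ p ≤ V A i a := fun i hi =>
      (V_mono_x hA i₀ hp hpa).trans (V_mono_i hA (hmin i hi) ha1)
    -- the deviation from the tangent
    set η : ℝ := 2 ^ ((7 + S + 2 * L) * K) / V A i₀ p with hηdef
    have hη : η ≤ (1 / 2) ^ ((E + 4) * K) := by
      rw [hηdef, div_le_iff₀ hV0, one_div, inv_pow, inv_mul_eq_div, le_div_iff₀ (by positivity), ← pow_add]
      refine le_trans (le_of_eq ?_) hbig
      congr 1
      ring
    have hlin : ∀ i : I, ∀ x ∈ Icc a (a + ℓ), |(A * x ^ ((i : ℕ) + 1) + c i) -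
        (V A i a * x + (A * a ^ ((i : ℕ) + 1) - V A i a * a + c i))| ≤ η := by
      intro i x hx
      have h1 := tangent hA i ha1 hx.1
      have e1 : (A * x ^ ((i : ℕ) + 1) + c i) - (V A i a * x + (A * a ^ ((i : ℕ) + 1) - V A i a * a + c i)) =
          A * x ^ ((i : ℕ) + 1) - (V A i a * x + (A * a ^ ((i : ℕ) + 1) - V A i a * a)) := by ring
      rw [e1]
      refine h1.trans ?_
      have hxq : x ≤ q := hx.2.trans haq
      have h3 : V A i x ≤ 2 * V A i p := by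
        refine (V_mono_x hA i (ha1.trans hx.1) hxq).trans ?_
        unfold V
        have := h2 i i.2
        calc A * ((i : ℕ) + 1) * q ^ (i : ℕ) ≤ A * ((i : ℕ) + 1) * (2 * p ^ (i : ℕ)) := by gcongr
          _ = _ := by ring
      have h4 : V A i p ≤ V A i₀ p * (2 ^ (3 * K) * 2 ^ (S * K)) := by
        unfold V
        have h5 := hmin i i.2
        have h6 : p ^ (i : ℕ) = p ^ i₀ * p ^ ((i : ℕ) - i₀) := by
          rw [← pow_add]
          congr 1
          omega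
        have h7 : p ^ ((i : ℕ) - i₀) ≤ 2 ^ (S * K) := by
          refine le_trans (pow_le_pow_right₀ hp ?_) hspeed
          have := hspan i i.2
          omega
        have h8 : (((i : ℕ) : ℝ) + 1) ≤ 2 ^ (3 * K) := by exact_mod_cast hsize i i.2
        have h9 : (1 : ℝ) ≤ (i₀ : ℝ) + 1 := by
          have : (0 : ℝ) ≤ i₀ := Nat.cast_nonneg _
          linarith
        rw [h6]
        calc A * (((i : ℕ) : ℝ) + 1) * (p ^ i₀ * p ^ ((i : ℕ) - i₀)) ≤ A * (2 ^ (3 * K)) * (p ^ i₀ * 2 ^ (S * K)) := by gcongr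
          _ = A * 1 * p ^ i₀ * (2 ^ (3 * K) * 2 ^ (S * K)) := by ring
          _ ≤ A * ((i₀ : ℝ) + 1) * p ^ i₀ * (2 ^ (3 * K) * 2 ^ (S * K)) := by gcongr
      have h5 : (((i : ℕ) : ℝ)) ≤ 2 ^ (3 * K) := by
        have : (((i : ℕ) : ℝ) + 1) ≤ 2 ^ (3 * K) := by exact_mod_cast hsize i i.2
        linarith
      have h6 : (x - a) ^ 2 ≤ ℓ ^ 2 := by
        apply pow_le_pow_left₀ (by linarith [hx.1])
        linarith [hx.2]
      have h7 : 0 ≤ V A i x := (V_pos hA i (ha1.trans hx.1)).le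
      have h8 : ℓ ^ 2 = 2 ^ (L * K) * 2 ^ (L * K) / (V A i₀ p * V A i₀ p) := by
        rw [hℓdef]
        ring
      calc ((i : ℕ) : ℝ) * V A i x * (x - a) ^ 2 ≤ 2 ^ (3 * K) * (2 * (V A i₀ p * (2 ^ (3 * K) * 2 ^ (S * K)))) * ℓ ^ 2 := by
            have := h3.trans (mul_le_mul_of_nonneg_left h4 (by norm_num : (0 : ℝ) ≤ 2))
            gcongr
        _ = 2 * (2 ^ (3 * K) * 2 ^ (3 * K) * 2 ^ (S * K) * 2 ^ (L * K) * 2 ^ (L * K)) / V A i₀ p := by
            rw [h8]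
            field_simp
        _ ≤ η := by
            rw [hηdef]
            apply div_le_div_of_nonneg_right _ hV0.le
            have e : (2 : ℝ) ^ ((7 + S + 2 * L) * K) = 2 ^ K * (2 ^ (3 * K) * 2 ^ (3 * K) * 2 ^ (S * K) * 2 ^ (L * K) * 2 ^ (L * K)) := by
              simp only [← pow_add]
              congr 1
              ring
            rw [e]
            have : (2 : ℝ) ≤ 2 ^ K := by
              calc (2 : ℝ) = 2 ^ 1 := by norm_num
                _ ≤ 2 ^ K := pow_le_pow_right₀ (by norm_num) (by omega)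
            gcongr
    have hδpos : 0 < V A i₀ a * (1 / 2) ^ ((D + 3) * K) := mul_pos (V_pos hA _ ha1) (by positivity)
    have hmain := torus_near (ι := I) (N₀ := 2 ^ K) (h' := H * K) Nat.one_le_two_pow (fun i => f i) (fun i => hf i i.2)
      (fun i x => A * x ^ ((i : ℕ) + 1) + c i) (fun i => by fun_prop) (fun i => V A i a)
      (fun i => A * a ^ ((i : ℕ) + 1) - V A i a * a + c i) (a := a) (ℓ := ℓ) (δ := V A i₀ a * (1 / 2) ^ ((D + 3) * K)) (η := η)
      (fun i => V_pos hA _ ha1) hℓ (fun i => by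
        calc (1 : ℝ) ≤ 2 ^ (L * K) := one_le_pow₀ (by norm_num)
          _ = V A i₀ p * ℓ := hVℓ0.symm
          _ ≤ V A i a * ℓ := mul_le_mul_of_nonneg_right (hVa i i.2) hℓ.le)
      hδpos (by positivity) hlin
      (fun κ hκ hκ0 => slope_nr hA hI hmin hspan h₀ hsize ha1 (hNR a ⟨hpa, by linarith⟩) hκ hκ0)
    have e1 : ∀ x : ℝ, ∏ i : I, f i (A * x ^ ((i : ℕ) + 1) + c i) = ∏ i ∈ I, f i (A * x ^ (i + 1) + c i) := fun x =>
      Finset.prod_coe_sort I fun i => f i (A * x ^ (i + 1) + c i)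
    have e2 : ∏ i : I, ∫ t in (0 : ℝ)..1, f i t = ∏ i ∈ I, ∫ t in (0 : ℝ)..1, f i t :=
      Finset.prod_coe_sort I fun i => ∫ t in (0 : ℝ)..1, f i t
    simp only [e1, e2, Fintype.card_coe] at hmain
    refine hmain.trans ?_
    apply mul_le_mul_of_nonneg_right _ hℓ.le
    -- the numbers
    have hcardM : (I.card : ℝ) ≤ M := by exact_mod_cast hI
    have hMK : (4 : ℝ) * M ≤ 2 ^ K := by exact_mod_cast hM
    have hP : (4 * ((2 ^ K : ℕ) : ℝ) * (((H * K : ℕ) : ℝ) + 1)) ^ I.card ≤ 2 ^ (2 * M * K) := by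
      have h5 : (4 * ((2 ^ K : ℕ) : ℝ) * (((H * K : ℕ) : ℝ) + 1)) ≤ 2 ^ (2 * K) := by
        have : (4 : ℝ) * (((H * K : ℕ) : ℝ) + 1) ≤ 2 ^ K := by exact_mod_cast hH
        calc (4 * ((2 ^ K : ℕ) : ℝ) * (((H * K : ℕ) : ℝ) + 1)) = 2 ^ K * (4 * (((H * K : ℕ) : ℝ) + 1)) := by push_cast; ring
          _ ≤ 2 ^ K * 2 ^ K := by gcongr
          _ = 2 ^ (2 * K) := by rw [← pow_add]; congr 1; ring
      calc _ ≤ ((2 : ℝ) ^ (2 * K)) ^ I.card := by gcongr
        _ ≤ ((2 : ℝ) ^ (2 * K)) ^ M := pow_le_pow_right₀ (one_le_pow₀ (by norm_num)) hI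
        _ = 2 ^ (2 * M * K) := by rw [← pow_mul]; congr 1; ring
    have hhalf : ∀ n m : ℕ, (2 : ℝ) ^ n * (1 / 2) ^ (n + m) = (1 / 2) ^ m := by
      intro n m
      rw [pow_add, ← mul_assoc, ← mul_pow]
      norm_num
    have hT1 : (4 * (I.card : ℝ) * ((2 ^ K : ℕ) : ℝ) * (1 / 2) ^ (H * K)) ≤ 2 ^ (2 * K) * (1 / 2) ^ (H * K) := by
      have : 4 * (I.card : ℝ) * ((2 ^ K : ℕ) : ℝ) ≤ 2 ^ (2 * K) := by
        push_cast
        calc 4 * (I.card : ℝ) * 2 ^ K ≤ 2 ^ K * 2 ^ K := by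
              gcongr
              linarith
          _ = 2 ^ (2 * K) := by rw [← pow_add]; congr 1; ring
      gcongr
    have hT2 : 1 / (V A i₀ a * (1 / 2) ^ ((D + 3) * K) * ℓ) ≤ 2 ^ ((D + 3) * K) * (1 / 2) ^ (L * K) := by
      have h5 : (2 : ℝ) ^ (L * K) * (1 / 2) ^ ((D + 3) * K) ≤ V A i₀ a * (1 / 2) ^ ((D + 3) * K) * ℓ := by
        rw [← hVℓ0]
        have := V_mono_x hA i₀ hp hpa
        calc V A i₀ p * ℓ * (1 / 2) ^ ((D + 3) * K) ≤ V A i₀ a * ℓ * (1 / 2) ^ ((D + 3) * K) := by gcongr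
          _ = _ := by ring
      calc _ ≤ 1 / ((2 : ℝ) ^ (L * K) * (1 / 2) ^ ((D + 3) * K)) := by gcongr
        _ = _ := by
            rw [one_div_pow, one_div_pow]
            field_simp
    have hA1 : (2 : ℝ) ^ (2 * M * K) * (2 ^ (2 * K) * (1 / 2) ^ (H * K)) = (1 / 2) ^ ((E + 2) * K) := by
      rw [← mul_assoc, ← pow_add, ← hhalf (2 * M * K + 2 * K) ((E + 2) * K)]
      congr 2
      rw [hHdef]
      ring
    have hA2 : (2 : ℝ) ^ (2 * M * K) * (2 ^ ((D + 3) * K) * (1 / 2) ^ (L * K)) = (1 / 2) ^ ((E + 2) * K) := by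
      rw [← mul_assoc, ← pow_add, ← hhalf (2 * M * K + (D + 3) * K) ((E + 2) * K)]
      congr 2
      rw [hLdef]
      ring
    have hA3 : 12 * (I.card : ℝ) * ((2 ^ K : ℕ) : ℝ) * η ≤ 3 * (1 / 2) ^ ((E + 2) * K) := by
      have h5 : 12 * (I.card : ℝ) * ((2 ^ K : ℕ) : ℝ) ≤ 3 * 2 ^ (2 * K) := by
        push_cast
        calc 12 * (I.card : ℝ) * 2 ^ K = 3 * (4 * (I.card : ℝ)) * 2 ^ K := by ring
          _ ≤ 3 * 2 ^ K * 2 ^ K := by
              gcongr
              linarith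
          _ = 3 * 2 ^ (2 * K) := by rw [mul_assoc, ← pow_add]; congr 2; ring
      calc _ ≤ 3 * (2 : ℝ) ^ (2 * K) * (1 / 2) ^ ((E + 4) * K) := by gcongr
        _ = 3 * (1 / 2) ^ ((E + 2) * K) := by
            have e : (E + 4) * K = 2 * K + (E + 2) * K := by ring
            rw [mul_assoc, e, hhalf (2 * K) ((E + 2) * K)]
    have hfin : 5 * (1 / 2 : ℝ) ^ ((E + 2) * K) ≤ (1 / 2) ^ (E * K) := by
      have e : (E + 2) * K = E * K + 2 * K := by ring
      rw [e, pow_add]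
      have h5 : (1 / 2 : ℝ) ^ (2 * K) ≤ (1 / 2) ^ 4 := pow_le_pow_of_le_one (by norm_num) (by norm_num) (by omega)
      have h6 : (0 : ℝ) ≤ (1 / 2) ^ (E * K) := by positivity
      nlinarith
    calc _ ≤ (2 : ℝ) ^ (2 * M * K) * (2 ^ (2 * K) * (1 / 2) ^ (H * K) + 2 ^ ((D + 3) * K) * (1 / 2) ^ (L * K)) +
          3 * (1 / 2) ^ ((E + 2) * K) := by
            refine add_le_add ?_ hA3
            have h5 : 0 ≤ 1 / (V A i₀ a * (1 / 2) ^ ((D + 3) * K) * ℓ) := by positivity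
            gcongr
      _ = 5 * (1 / 2) ^ ((E + 2) * K) := by
            have e : (2 : ℝ) ^ (2 * M * K) * (2 ^ (2 * K) * (1 / 2) ^ (H * K) + 2 ^ ((D + 3) * K) * (1 / 2) ^ (L * K)) =
                (1 / 2) ^ ((E + 2) * K) + (1 / 2) ^ ((E + 2) * K) := by
              rw [mul_add]
              exact congrArg₂ (· + ·) hA1 hA2
            rw [e]
            ring
      _ ≤ _ := hfin

end Pool.Agent.Helper78.LD6
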